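import Pool.Agent.H525.PV.Stm
import Pool.Agent.H525.SH.PAF
import Pool.Graph.R_seed8.R410.LW.Bir

set_option autoImplicit false

/-! # Roots modulo prime ideals of degree one and homomorphisms (helper344 for helper525) -/

namespace Pool.Agent.H525.PV.X

open Finset NumberField Polynomial
open Pool.Agent.H525.SH (PA)
open Pool.Agent.H525.PV
open Pool.Agent.R410.LW

theorem ext_ker {R : Type} [CommRing R] {p : ℕ} [Fact p.Prime] {φ ψ : R →+* ZMod p}
    (h : RingHom.ker φ = RingHom.ker ψ) : φ = ψ := by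
  refine RingHom.ext fun x => ?_
  have h1 : x - ((φ x).val : R) ∈ RingHom.ker φ := by
    rw [RingHom.mem_ker, map_sub, map_natCast, ZMod.natCast_zmod_val, sub_self]
  rw [h, RingHom.mem_ker, map_sub, map_natCast, ZMod.natCast_zmod_val, sub_eq_zero] at h1
  exact h1.symm

section
variable {K : Type} [Field K] [NumberField K]

theorem absNorm_ker {p : ℕ} [Fact p.Prime] (φ : 𝓞 K →+* ZMod p) :
    Ideal.absNorm (RingHom.ker φ) = p := by
  have e := RingHom.quotientKerEquivOfSurjective (ZMod.ringHom_surjective φ)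
  have h1 : Nat.card (𝓞 K ⧸ RingHom.ker φ) = Nat.card (ZMod p) := Nat.card_congr e.toEquiv
  rw [Nat.card_zmod] at h1
  exact h1

theorem mem_filt {p : ℕ} (hp : p.Prime) (P : Ideal (𝓞 K)) :
    P ∈ (PA K p).filter (fun P => Ideal.absNorm P = p) ↔ Ideal.absNorm P = p := by
  rw [mem_filter]
  constructor
  · exact fun h => h.2
  · intro h
    refine ⟨((Pool.Agent.H525.SH.X.t_PAF K p hp).1 P).2 ⟨?_, ?_⟩, h⟩
    · apply Ideal.isPrime_of_irreducible_absNorm
      rw [h]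
      exact hp
    · have h1 := Ideal.absNorm_mem P
      rwa [h] at h1

theorem exists_hom {p : ℕ} (hp : p.Prime) {P : Ideal (𝓞 K)} (hP : Ideal.absNorm P = p) :
    ∃ φ : 𝓞 K →+* ZMod p, RingHom.ker φ = P := by
  have hcard : Nat.card (𝓞 K ⧸ P) = p := hP
  have hfin : Finite (𝓞 K ⧸ P) := Nat.finite_of_card_ne_zero (by rw [hcard]; exact hp.ne_zero)
  have := Fintype.ofFinite (𝓞 K ⧸ P)
  have hc' : Fintype.card (𝓞 K ⧸ P) = p := by
    rw [← Nat.card_eq_fintype_card]; exact hcard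
  set e := ZMod.ringEquivOfPrime (𝓞 K ⧸ P) hp hc' with he
  refine ⟨(e.symm : 𝓞 K ⧸ P →+* ZMod p).comp (Ideal.Quotient.mk P), ?_⟩
  ext x
  rw [RingHom.mem_ker, RingHom.comp_apply]
  rw [RingEquiv.coe_toRingHom, map_eq_zero_iff _ e.symm.injective]
  exact Ideal.Quotient.eq_zero_iff_mem

theorem rt_ker {p : ℕ} [Fact p.Prime] (f : (𝓞 K)[X]) (φ : 𝓞 K →+* ZMod p) :
    rt f (RingHom.ker φ) = Nat.card {r : ZMod p // f.eval₂ φ r = 0} := by
  set e := RingHom.quotientKerEquivOfSurjective (ZMod.ringHom_surjective φ) with he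
  have hcomp : (e : 𝓞 K ⧸ RingHom.ker φ →+* ZMod p).comp (Ideal.Quotient.mk (RingHom.ker φ)) =
      φ := by
    ext x
    rfl
  unfold rt
  refine Nat.card_congr (e.toEquiv.subtypeEquiv fun r => ?_)
  have h1 : e ((f.map (Ideal.Quotient.mk (RingHom.ker φ))).eval r) = f.eval₂ φ (e r) := by
    have h2 := Polynomial.hom_eval₂ f (Ideal.Quotient.mk (RingHom.ker φ))
      (e : 𝓞 K ⧸ RingHom.ker φ →+* ZMod p) r
    rw [hcomp] at h2
    rw [Polynomial.eval_map]
    exact h2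
  have h3 : e.toEquiv r = e r := rfl
  rw [h3, ← h1, map_eq_zero_iff _ e.injective]

theorem finite_hom {p : ℕ} (hp : p.Prime) : Finite (𝓞 K →+* ZMod p) := by
  have : Fact p.Prime := ⟨hp⟩
  refine Finite.of_injective (fun φ : 𝓞 K →+* ZMod p =>
    (⟨RingHom.ker φ, (mem_filt hp _).2 (absNorm_ker φ)⟩ :
      {P // P ∈ (PA K p).filter (fun P => Ideal.absNorm P = p)})) ?_
  intro φ ψ h
  exact ext_ker (congrArg Subtype.val h)

/-- homomorphisms of a polynomial ring -/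
noncomputable def homEquiv {R : Type} [CommRing R] {p : ℕ} (f : R[X]) :
    {φ : R[X] →+* ZMod p // φ f = 0} ≃ Σ ψ : R →+* ZMod p, {r : ZMod p // f.eval₂ ψ r = 0} where
  toFun φ := ⟨φ.1.comp C, ⟨φ.1 X, by
    have h := φ.2
    have h2 : φ.1 = eval₂RingHom (φ.1.comp C) (φ.1 X) := by
      refine Polynomial.ringHom_ext (fun a => ?_) ?_
      · simp
      · simp
    rw [h2] at h
    exact h⟩⟩
  invFun q := ⟨eval₂RingHom q.1 q.2.1, q.2.2⟩
  left_inv φ := by
    apply Subtype.ext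
    refine Polynomial.ringHom_ext (fun a => ?_) ?_
    · simp
    · simp
  right_inv q := by
    obtain ⟨ψ, r, hr⟩ := q
    have h1 : (eval₂RingHom ψ r).comp C = ψ := by
      ext a
      simp
    have h2 : (eval₂RingHom ψ r) X = r := by simp
    refine Sigma.ext h1 ?_
    simp only
    rw! [h1]
    simp

theorem sum_rt (f : (𝓞 K)[X]) {p : ℕ} (hp : p.Prime) :
    ∑ P ∈ (PA K p).filter (fun P => Ideal.absNorm P = p), rt f P =
      Nat.card {φ : (𝓞 K)[X] →+* ZMod p // φ f = 0} := by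
  have : Fact p.Prime := ⟨hp⟩
  have := finite_hom (K := K) hp
  have := Fintype.ofFinite (𝓞 K →+* ZMod p)
  rw [Nat.card_congr (homEquiv f), Nat.card_sigma]
  symm
  refine Finset.sum_bij (fun φ _ => RingHom.ker φ) ?_ ?_ ?_ ?_
  · intro φ _
    exact (mem_filt hp _).2 (absNorm_ker φ)
  · intro φ _ ψ _ h
    exact ext_ker h
  · intro P hP
    obtain ⟨φ, hφ⟩ := exists_hom hp ((mem_filt hp P).1 hP)
    exact ⟨φ, mem_univ _, hφ⟩
  · intro φ _
    exact (rt_ker f φ).symm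

/-- an integer with a property implying that `d` is not in prime ideals over large primes -/
theorem exists_int {R : Type} [CommRing R] [IsDomain R] [CharZero R]
    (halg : Algebra.IsAlgebraic ℤ R) {d : R} (hd : d ≠ 0) :
    ∃ n : ℕ, n ≠ 0 ∧ ∀ p : ℕ, p.Prime → n < p → ∀ φ : R →+* ZMod p, φ d ≠ 0 := by
  obtain ⟨r, hr, hdvd⟩ := (halg.isAlgebraic d).exists_nonzero_dvd
    (mem_nonZeroDivisors_of_ne_zero hd)
  refine ⟨r.natAbs, Int.natAbs_ne_zero.2 hr, fun p hp hlt φ h0 => ?_⟩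
  have : Fact p.Prime := ⟨hp⟩
  obtain ⟨c, hc⟩ := hdvd
  have h1 := congrArg φ hc
  rw [map_mul, h0, zero_mul] at h1
  have h2 : ((r : ℤ) : ZMod p) = 0 := by
    have h3 : φ (algebraMap ℤ R r) = (r : ZMod p) := by
      rw [eq_intCast (algebraMap ℤ R), map_intCast]
    rw [← h3, h1]
  rw [ZMod.intCast_zmod_eq_zero_iff_dvd, Int.natCast_dvd] at h2
  have := Nat.le_of_dvd (Int.natAbs_pos.2 hr) h2
  omega

theorem clear_den (Q : K[X]) : ∃ (b : 𝓞 K) (q : (𝓞 K)[X]), b ≠ 0 ∧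
    q.map (algebraMap (𝓞 K) K) = C (algebraMap (𝓞 K) K b) * Q := by
  obtain ⟨b, hb, h⟩ := IsLocalization.integerNormalization_spec (nonZeroDivisors (𝓞 K)) Q
  refine ⟨b, IsLocalization.integerNormalization (nonZeroDivisors (𝓞 K)) Q,
    nonZeroDivisors.ne_zero hb, ?_⟩
  rw [h, ← smul_eq_C_mul, algebraMap_smul]

theorem clear_one {f h : (𝓞 K)[X]}
    (hd : f.map (algebraMap (𝓞 K) K) ∣ h.map (algebraMap (𝓞 K) K)) :
    ∃ d : 𝓞 K, d ≠ 0 ∧ C d * h ∈ Ideal.span {f} := by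
  obtain ⟨Q, hQ⟩ := hd
  obtain ⟨b, q, hb0, hb⟩ := clear_den Q
  refine ⟨b, hb0, Ideal.mem_span_singleton.2 ⟨q, ?_⟩⟩
  apply Polynomial.map_injective (algebraMap (𝓞 K) K) (IsFractionRing.injective (𝓞 K) K)
  rw [Polynomial.map_mul, Polynomial.map_mul, hb, hQ, Polynomial.map_C]
  ring

theorem lan_of {M A : Type} [Field M] [NumberField M] [CommRing A] [IsDomain A] [Algebra A M]
    [IsFractionRing A M] (h : Algebra.FiniteType ℤ A) : Landau A 0 M := by
  have h4 : Algebra.FiniteType ℤ (𝓞 M) := inferInstance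
  exact transfer (A := 𝓞 M) (B := A) (M := M) (landau_zero M)

theorem ft_int {R : Type} [CommRing R] (i : Algebra ℤ R)
    (h : @Algebra.FiniteType ℤ R _ _ i) : @Algebra.FiniteType ℤ R _ _ (Ring.toIntAlgebra R) := by
  have h1 : i = Ring.toIntAlgebra R := Subsingleton.elim _ _
  subst h1
  exact h

theorem clear_all (f : (𝓞 K)[X]) (I : Ideal (𝓞 K)[X])
    (hI : ∀ h ∈ I, f.map (algebraMap (𝓞 K) K) ∣ h.map (algebraMap (𝓞 K) K)) :
    ∃ d : 𝓞 K, d ≠ 0 ∧ ∀ h ∈ I, C d * h ∈ Ideal.span {f} := by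
  classical
  obtain ⟨S, hS⟩ := (isNoetherianRing_iff_ideal_fg _).1 inferInstance I
  have h1 : ∀ h : (𝓞 K)[X], ∃ d : 𝓞 K, d ≠ 0 ∧ (h ∈ I → C d * h ∈ Ideal.span {f}) := by
    intro h
    by_cases hh : h ∈ I
    · obtain ⟨d, hd0, hd⟩ := clear_one (hI h hh)
      exact ⟨d, hd0, fun _ => hd⟩
    · exact ⟨1, one_ne_zero, fun h2 => absurd h2 hh⟩
  choose D hD0 hD using h1
  refine ⟨∏ h ∈ S, D h, Finset.prod_ne_zero_iff.2 fun h _ => hD0 h, fun h hh => ?_⟩
  rw [← hS] at hh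
  refine Submodule.span_induction (p := fun x _ => C (∏ h ∈ S, D h) * x ∈ Ideal.span {f})
    ?_ ?_ ?_ ?_ hh
  · intro x hx
    have hx' : x ∈ S := hx
    have hxI : x ∈ I := by
      rw [← hS]
      exact Submodule.subset_span hx
    obtain ⟨c, hc⟩ := Finset.dvd_prod_of_mem D hx'
    rw [hc, C_mul, mul_comm (C (D x)), mul_assoc]
    exact Ideal.mul_mem_left _ _ (hD x hxI)
  · rw [mul_zero]
    exact Ideal.zero_mem _
  · intro x y _ _ hx hy
    rw [mul_add]
    exact Ideal.add_mem _ hx hy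
  · intro a x _ hx
    rw [smul_eq_mul, mul_left_comm]
    exact Ideal.mul_mem_left _ _ hx

end

theorem t_AV2 : Pool.Agent.H525.PV.S_AV2 := by
  intro K _ _ f hirr hdeg
  set F := f.map (algebraMap (𝓞 K) K) with hF
  have hfact : Fact (Irreducible F) := ⟨hirr⟩
  have hF0 : F ≠ 0 := hirr.ne_zero
  have hfin : Module.Finite K (AdjoinRoot F) := (AdjoinRoot.powerBasis hF0).finite
  have hch : CharZero (AdjoinRoot F) :=
    charZero_of_injective_algebraMap (algebraMap K (AdjoinRoot F)).injective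
  have hfd : FiniteDimensional ℚ (AdjoinRoot F) := Module.Finite.trans K (AdjoinRoot F)
  have hNF : NumberField (AdjoinRoot F) :=
    { to_charZero := hch, to_finiteDimensional := hfd }
  set g : (𝓞 K)[X] →+* AdjoinRoot F :=
    (AdjoinRoot.mk F).comp (mapRingHom (algebraMap (𝓞 K) K)) with hg
  have hgC : ∀ h : (𝓞 K)[X], g h = AdjoinRoot.mk F (h.map (algebraMap (𝓞 K) K)) := fun h => rfl
  have hker : ∀ h : (𝓞 K)[X], h ∈ RingHom.ker g ↔ F ∣ h.map (algebraMap (𝓞 K) K) := by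
    intro h
    rw [RingHom.mem_ker, hgC, AdjoinRoot.mk_eq_zero]
  have hprime : (RingHom.ker g).IsPrime := RingHom.ker_isPrime g
  let A := (𝓞 K)[X] ⧸ RingHom.ker g
  let ι : A →+* AdjoinRoot F := RingHom.kerLift g
  have hι : Function.Injective ι := RingHom.kerLift_injective g
  let _ : Algebra A (AdjoinRoot F) := ι.toAlgebra
  have hcA : CharZero A := by
    refine ⟨fun a b h => ?_⟩
    have h1 := congrArg ι h
    rw [map_natCast, map_natCast] at h1
    exact_mod_cast h1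
  have hfaith : FaithfulSMul A (AdjoinRoot F) := (faithfulSMul_iff_algebraMap_injective _ _).2 hι
  have hfrac : IsFractionRing A (AdjoinRoot F) := by
    refine IsFractionRing.of_field A (AdjoinRoot F) fun z => ?_
    obtain ⟨Q, rfl⟩ := AdjoinRoot.mk_surjective z
    obtain ⟨b, q, hb0, hb⟩ := clear_den Q
    refine ⟨Ideal.Quotient.mk _ q, Ideal.Quotient.mk _ (C b), ?_⟩
    have e1 : algebraMap A (AdjoinRoot F) (Ideal.Quotient.mk _ q) =
        AdjoinRoot.mk F (C (algebraMap (𝓞 K) K b) * Q) := by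
      rw [← hb]
      rfl
    have e2 : algebraMap A (AdjoinRoot F) (Ideal.Quotient.mk _ (C b)) =
        AdjoinRoot.mk F (C (algebraMap (𝓞 K) K b)) := by
      rw [← Polynomial.map_C]
      rfl
    have h3 : AdjoinRoot.mk F (C (algebraMap (𝓞 K) K b)) ≠ 0 := by
      have h4 : AdjoinRoot.mk F (C (algebraMap (𝓞 K) K b)) = algebraMap K (AdjoinRoot F)
        (algebraMap (𝓞 K) K b) := rfl
      rw [h4, map_ne_zero_iff _ (algebraMap K (AdjoinRoot F)).injective,
        map_ne_zero_iff _ (IsFractionRing.injective (𝓞 K) K)]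
      exact hb0
    rw [e1, e2, map_mul, mul_div_cancel_left₀ _ h3]
  have hft : @Algebra.FiniteType ℤ A _ _ (Ring.toIntAlgebra A) := by
    have h1 : @Algebra.FiniteType ℤ (𝓞 K)[X] _ _ Polynomial.algebraOfAlgebra :=
      @Algebra.FiniteType.trans ℤ (𝓞 K) (𝓞 K)[X] _ _ _ _ _ _ _
      (inferInstance : Algebra.FiniteType ℤ (𝓞 K)) inferInstance
    have h2 : @Algebra.FiniteType ℤ (𝓞 K)[X] _ _ (Ring.toIntAlgebra _) := ft_int _ h1
    exact ft_int _ (@Algebra.FiniteType.of_surjective ℤ (𝓞 K)[X] A _ _ _ (Ring.toIntAlgebra _)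
      (Ring.toIntAlgebra _) h2
      ((Ideal.Quotient.mk (RingHom.ker g)).toIntAlgHom) Ideal.Quotient.mk_surjective)
  have hLan : Landau A 0 (AdjoinRoot F) := lan_of (M := AdjoinRoot F) (A := A) hft
  have halgM : Algebra.IsAlgebraic ℤ (AdjoinRoot F) := by
    have h1 : Algebra.IsAlgebraic ℚ (AdjoinRoot F) := inferInstance
    refine ⟨fun a => ?_⟩
    exact (IsFractionRing.isAlgebraic_iff ℤ ℚ (AdjoinRoot F)).2 (h1.isAlgebraic a)
  have halgA : Algebra.IsAlgebraic ℤ A := by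
    refine ⟨fun a => ?_⟩
    have h1 : IsAlgebraic ℤ (ι a) := halgM.isAlgebraic (ι a)
    exact (isAlgebraic_algHom_iff ι.toIntAlgHom hι).1 h1
  obtain ⟨s, hs, hLan⟩ := hLan
  obtain ⟨Cc, N, hC, hN, hLan⟩ := hLan s hs dvd_rfl
  obtain ⟨n1, hn1, hn1'⟩ := exists_int halgA hs
  obtain ⟨d, hd, hd'⟩ := clear_all f (RingHom.ker g) fun h hh => (hker h).1 hh
  obtain ⟨n2, hn2, hn2'⟩ := exists_int (R := 𝓞 K) inferInstance hd
  refine ⟨AdjoinRoot F, inferInstance, hNF, N + n1 + n2 + ⌈Cc ^ 2⌉₊ + 1, fun p hp hpp => ?_⟩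
  have hfp : Fact p.Prime := ⟨hp⟩
  rw [sum_rt f hp]
  -- homomorphisms killing `f` are the homomorphisms of `A`
  have e1 : Nat.card {φ : (𝓞 K)[X] →+* ZMod p // φ f = 0} = Nat.card (A →+* ZMod p) := by
    have hle : ∀ φ : (𝓞 K)[X] →+* ZMod p, φ f = 0 → ∀ a ∈ RingHom.ker g, φ a = 0 := by
      intro φ hφ a ha
      have h1 := hd' a ha
      obtain ⟨q, hq⟩ := Ideal.mem_span_singleton.1 h1
      have h2 := congrArg φ hq
      rw [map_mul, map_mul, hφ, zero_mul] at h2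
      rcases mul_eq_zero.1 h2 with h3 | h3
      · exact absurd h3 (hn2' p hp (by omega) (φ.comp C))
      · exact h3
    refine Nat.card_congr
      { toFun := fun φ => Ideal.Quotient.lift (RingHom.ker g) φ.1 (hle φ.1 φ.2)
        invFun := fun ψ => ⟨ψ.comp (Ideal.Quotient.mk _), ?_⟩
        left_inv := fun φ => ?_
        right_inv := fun ψ => ?_ }
    · have h1 : f ∈ RingHom.ker g := (hker f).2 dvd_rfl
      rw [RingHom.comp_apply, Ideal.Quotient.eq_zero_iff_mem.2 h1, map_zero]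
    · apply Subtype.ext
      ext a
      · rfl
      · rfl
    · apply Ideal.Quotient.ringHom_ext
      rfl
  have e2 : Nat.card {φ : A →+* ZMod p // φ s ≠ 0} = Nat.card (A →+* ZMod p) :=
    Nat.card_congr (Equiv.subtypeUnivEquiv fun φ => hn1' p hp (by omega) φ)
  have h3 := hLan (ZMod p) (by
    rw [Ne, ZMod.natCast_eq_zero_iff]
    intro h
    have := Nat.le_of_dvd (Nat.pos_of_ne_zero hN) h
    omega)
  rw [e2, pow_zero, mul_one, mul_one, Nat.card_zmod] at h3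
  rw [e1]
  by_contra hne
  have h4 : (1 : ℝ) ≤ |(Nat.card (A →+* ZMod p) : ℝ) - Nat.card (𝓞 (AdjoinRoot F) →+* ZMod p)| := by
    have h5 : (1 : ℤ) ≤ |(Nat.card (A →+* ZMod p) : ℤ) - Nat.card (𝓞 (AdjoinRoot F) →+* ZMod p)| := by
      apply Int.one_le_abs
      rw [sub_ne_zero]
      exact_mod_cast hne
    exact_mod_cast h5
  have h6 : √(p : ℝ) ≤ Cc := by
    calc √(p : ℝ) = 1 * √(p : ℝ) := (one_mul _).symm
      _ ≤ _ := mul_le_mul_of_nonneg_right h4 (Real.sqrt_nonneg _)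
      _ ≤ Cc := h3
  have h7 : (p : ℝ) ≤ Cc ^ 2 := by
    rw [← Real.sqrt_le_left hC]
    exact h6
  have h8 : (p : ℝ) ≤ ⌈Cc ^ 2⌉₊ := h7.trans (Nat.le_ceil _)
  have h9 : p ≤ ⌈Cc ^ 2⌉₊ := by exact_mod_cast h8
  omega

end Pool.Agent.H525.PV.X
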