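import Pool.Agent.H525.PV.Stm
import Pool.Agent.H525.SH.COND
import Pool.Agent.H525.SH.PAF

set_option autoImplicit false

/-! # COND2: the densities `hf f p` satisfy the conditions of the linear sieve -/

namespace Pool.Agent.H525.PV.X

open Finset NumberField Filter Topology Polynomial
open Pool.Agent.W23.DC Pool.Agent.Y882 Pool.Agent.Y677.KU
open Pool.Agent.H525.SH Pool.Agent.H525.PV

open scoped Classical

section

variable {K : Type} [Field K] [NumberField K]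

theorem key2 (hRT : S_RT) {f : (𝓞 K)[X]} (hfix : NoFix f) (p : ℕ) (hp : p.Prime) :
    0 ≤ hf f p ∧ hf f p ≤ 1 ∧ hf f p ≤ ((f.natDegree * Module.finrank ℚ K : ℕ) : ℝ) / p ∧
      |p * hf f p - ((∑ P ∈ (PA K p).filter (fun P => Ideal.absNorm P = p), rt f P : ℕ) : ℝ)| ≤
        (((f.natDegree * Module.finrank ℚ K : ℕ) : ℝ) +
          ((f.natDegree * Module.finrank ℚ K : ℕ) : ℝ) ^ 2) * (1 / p) := by
  obtain ⟨hmem, hfa, hcard, -⟩ := X.t_PAF K p hp
  have hp0 : (0 : ℝ) < p := by exact_mod_cast hp.pos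
  have hp1 : (1 : ℝ) ≤ p := by exact_mod_cast hp.one_le
  obtain ⟨g, hg⟩ : ∃ g : ℝ, g = (f.natDegree : ℝ) := ⟨_, rfl⟩
  obtain ⟨d, hd⟩ : ∃ d : ℝ, d = ((f.natDegree * Module.finrank ℚ K : ℕ) : ℝ) := ⟨_, rfl⟩
  rw [← hd]
  have hg0 : 0 ≤ g := by
    rw [hg]
    positivity
  have hcard' : ((PA K p).card : ℝ) * g ≤ d := by
    rw [hd, hg]
    push_cast
    rw [mul_comm]
    have : ((PA K p).card : ℝ) ≤ Module.finrank ℚ K := by exact_mod_cast hcard
    gcongr
  have hd0 : 0 ≤ d := by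
    rw [hd]
    positivity
  have hrt : ∀ P ∈ PA K p, (rt f P : ℝ) ≤ g ∧ (rt f P : ℝ) < Ideal.absNorm P := by
    intro P hP
    obtain ⟨e, he1, he2⟩ := hfa P hP
    have hbot : P ≠ ⊥ := by
      intro h0
      rw [h0, Ideal.absNorm_bot] at he2
      have : 0 < p ^ e := pow_pos hp.pos e
      omega
    obtain ⟨h1, h2⟩ := hRT K f hfix P ((hmem P).1 hP).1 hbot
    rw [hg]
    exact ⟨by exact_mod_cast h1, by exact_mod_cast h2⟩
  have hN : ∀ P ∈ PA K p, (p : ℝ) ≤ Ideal.absNorm P := by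
    intro P hP
    obtain ⟨e, he1, he2⟩ := hfa P hP
    rw [he2]
    push_cast
    calc (p : ℝ) = (p : ℝ) ^ 1 := (pow_one _).symm
      _ ≤ (p : ℝ) ^ e := pow_le_pow_right₀ hp1 he1
  have hx : ∀ P ∈ PA K p, 0 ≤ (rt f P : ℝ) / (Ideal.absNorm P : ℝ) ∧
      (rt f P : ℝ) / (Ideal.absNorm P : ℝ) ≤ g / p := by
    intro P hP
    refine ⟨by positivity, ?_⟩
    have h1 := hN P hP
    have h2 := (hrt P hP).1
    gcongr
  have hx1 : ∀ P ∈ PA K p, (rt f P : ℝ) / (Ideal.absNorm P : ℝ) ≤ 1 := by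
    intro P hP
    have h1 := hN P hP
    rw [div_le_one (by linarith)]
    exact (hrt P hP).2.le
  obtain ⟨b1, b2, b3, b4, b5⟩ := X.bonf (PA K p) (fun P => (rt f P : ℝ) / (Ideal.absNorm P : ℝ))
    fun P hP => ⟨(hx P hP).1, hx1 P hP⟩
  have hS : ∑ P ∈ PA K p, (rt f P : ℝ) / (Ideal.absNorm P : ℝ) ≤ d / p := by
    calc ∑ P ∈ PA K p, (rt f P : ℝ) / (Ideal.absNorm P : ℝ) ≤ ∑ _P ∈ PA K p, g / (p : ℝ) :=
          sum_le_sum fun P hP => (hx P hP).2
      _ = (PA K p).card * g / (p : ℝ) := by rw [sum_const, nsmul_eq_mul]; ring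
      _ ≤ d / p := by gcongr
  have hhd : hf f p = 1 - ∏ P ∈ PA K p, (1 - (rt f P : ℝ) / (Ideal.absNorm P : ℝ)) := rfl
  have hle : hf f p ≤ d / p := by
    rw [hhd]
    linarith
  refine ⟨by rw [hhd]; linarith, by rw [hhd]; linarith, hle, ?_⟩
  -- the sum
  have hsum : p * ∑ P ∈ PA K p, (rt f P : ℝ) / (Ideal.absNorm P : ℝ) =
      ((∑ P ∈ (PA K p).filter (fun P => Ideal.absNorm P = p), rt f P : ℕ) : ℝ) +
        ∑ P ∈ (PA K p).filter (fun P => ¬ Ideal.absNorm P = p),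
          (p : ℝ) * ((rt f P : ℝ) / (Ideal.absNorm P : ℝ)) := by
    rw [mul_sum, ← sum_filter_add_sum_filter_not (PA K p) (fun P => Ideal.absNorm P = p)]
    congr 1
    push_cast
    refine sum_congr rfl fun P hP => ?_
    rw [(mem_filter.1 hP).2, mul_div_cancel₀ _ hp0.ne']
  have hR0 : 0 ≤ ∑ P ∈ (PA K p).filter (fun P => ¬ Ideal.absNorm P = p),
      (p : ℝ) * ((rt f P : ℝ) / (Ideal.absNorm P : ℝ)) := sum_nonneg fun P _ => by positivity
  have hR1 : ∑ P ∈ (PA K p).filter (fun P => ¬ Ideal.absNorm P = p),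
      (p : ℝ) * ((rt f P : ℝ) / (Ideal.absNorm P : ℝ)) ≤ d * (1 / p) := by
    have e : ∀ P ∈ (PA K p).filter (fun P => ¬ Ideal.absNorm P = p),
        (p : ℝ) * ((rt f P : ℝ) / (Ideal.absNorm P : ℝ)) ≤ g * (1 / p) := by
      intro P hP
      obtain ⟨hP1, hP2⟩ := mem_filter.1 hP
      obtain ⟨e, he1, he2⟩ := hfa P hP1
      have he3 : 2 ≤ e := by
        by_contra hlt
        have he4 : e = 1 := by omega
        rw [he4, pow_one] at he2
        exact hP2 he2
      have h1 := (hrt P hP1).1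
      have h2 : (p : ℝ) ^ 2 ≤ Ideal.absNorm P := by
        rw [he2]
        push_cast
        exact pow_le_pow_right₀ hp1 he3
      calc (p : ℝ) * ((rt f P : ℝ) / (Ideal.absNorm P : ℝ)) ≤ (p : ℝ) * (g / (p : ℝ) ^ 2) := by
            gcongr
        _ = g * (1 / p) := by field_simp
    calc _ ≤ ∑ _P ∈ (PA K p).filter (fun P => ¬ Ideal.absNorm P = p), g * (1 / (p : ℝ)) :=
          sum_le_sum e
      _ = (((PA K p).filter (fun P => ¬ Ideal.absNorm P = p)).card : ℝ) * g * (1 / (p : ℝ)) := by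
          rw [sum_const, nsmul_eq_mul]; ring
      _ ≤ d * (1 / p) := by
          have e2 : (((PA K p).filter (fun P => ¬ Ideal.absNorm P = p)).card : ℝ) * g ≤ d := by
            refine le_trans ?_ hcard'
            have : (((PA K p).filter (fun P => ¬ Ideal.absNorm P = p)).card : ℝ) ≤
                (PA K p).card := by exact_mod_cast card_filter_le _ _
            gcongr
          gcongr
  have hup : p * hf f p ≤ p * ∑ P ∈ PA K p, (rt f P : ℝ) / (Ideal.absNorm P : ℝ) := by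
    apply mul_le_mul_of_nonneg_left _ hp0.le
    rw [hhd]
    linarith
  have hlow : p * ∑ P ∈ PA K p, (rt f P : ℝ) / (Ideal.absNorm P : ℝ) - d ^ 2 * (1 / p) ≤
      p * hf f p := by
    have e1 : (∑ P ∈ PA K p, (rt f P : ℝ) / (Ideal.absNorm P : ℝ)) ^ 2 ≤ (d / p) ^ 2 :=
      pow_le_pow_left₀ b3 hS 2
    have e2 : ∑ P ∈ PA K p, (rt f P : ℝ) / (Ideal.absNorm P : ℝ) - (d / p) ^ 2 ≤ hf f p := by
      rw [hhd]
      linarith
    have e3 := mul_le_mul_of_nonneg_left e2 hp0.le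
    have e4 : (p : ℝ) * (d / p) ^ 2 = d ^ 2 * (1 / p) := by
      field_simp
    rw [mul_sub, e4] at e3
    exact e3
  have hdp : 0 ≤ d ^ 2 * (1 / (p : ℝ)) := by positivity
  have hdp' : 0 ≤ d * (1 / (p : ℝ)) := by positivity
  rw [abs_le, add_mul]
  constructor
  · rw [hsum] at hlow
    linarith
  · rw [hsum] at hup
    linarith

end

theorem t_COND2 : S_RT → S_AV2 → S_COND2 := by
  intro hRT hAV2 K _ _ f hfix hirr hdeg ε₁ β η hε₁ hε₁1 hβ hη
  obtain ⟨L, _, _, p₀, hL⟩ := hAV2 K f hirr hdeg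
  set D : ℝ := ((f.natDegree * Module.finrank ℚ K : ℕ) : ℝ) with hD
  set C : ℝ := (D + D ^ 2) + ∑ p ∈ range p₀,
    (p : ℝ) * |(p : ℝ) * hf f p - (Nat.card (𝓞 L →+* ZMod p) : ℝ)| with hC
  have hbound : ∀ p : ℕ, p.Prime →
      |(p : ℝ) * hf f p - (Nat.card (𝓞 L →+* ZMod p) : ℝ)| ≤ C * (1 / p) := by
    intro p hp
    have hp0 : (0 : ℝ) < p := by exact_mod_cast hp.pos
    have hsn : 0 ≤ ∑ p ∈ range p₀,
        (p : ℝ) * |(p : ℝ) * hf f p - (Nat.card (𝓞 L →+* ZMod p) : ℝ)| :=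
      sum_nonneg fun _ _ => by positivity
    rcases le_or_gt p₀ p with h | h
    · have h1 := (key2 hRT hfix p hp).2.2.2
      rw [hL p hp h, ← hD] at h1
      refine h1.trans ?_
      have : D + D ^ 2 ≤ C := by rw [hC]; linarith
      gcongr
    · have h1 : (p : ℝ) * |(p : ℝ) * hf f p - (Nat.card (𝓞 L →+* ZMod p) : ℝ)| ≤ C := by
        have h2 := single_le_sum (s := range p₀)
          (f := fun p : ℕ => (p : ℝ) * |(p : ℝ) * hf f p - (Nat.card (𝓞 L →+* ZMod p) : ℝ)|)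
          (fun _ _ => by positivity) (mem_range.2 h)
        rw [hC]
        have : 0 ≤ D + D ^ 2 := by positivity
        linarith
      rw [mul_one_div, le_div_iff₀ hp0, mul_comm]
      exact h1
  have hr : Tendsto (fun N : ℕ => (∑ p ∈ (range (N + 1)).filter Nat.Prime, (p : ℝ) * hf f p) /
      (Nat.primeCounting N : ℝ)) atTop (𝓝 1) := by
    have h1 := Pool.Agent.H484R2.pit L
    have h2 := X.avg_inv.const_mul C
    rw [mul_zero] at h2
    have h3 : Tendsto (fun N : ℕ => (∑ p ∈ (range (N + 1)).filter Nat.Prime,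
        ((p : ℝ) * hf f p - (Nat.card (𝓞 L →+* ZMod p) : ℝ))) / (Nat.primeCounting N : ℝ))
        atTop (𝓝 0) := by
      refine squeeze_zero_norm (fun N => ?_) h2
      rw [norm_div, Real.norm_of_nonneg (Nat.cast_nonneg (Nat.primeCounting N)), mul_div_assoc']
      apply div_le_div_of_nonneg_right _ (Nat.cast_nonneg _)
      rw [mul_sum]
      refine norm_sum_le_of_le _ fun p hp => ?_
      rw [Real.norm_eq_abs]
      exact hbound p (mem_filter.1 hp).2
    have h4 := h1.add h3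
    rw [add_zero] at h4
    refine h4.congr fun N => ?_
    rw [← add_div, ← sum_add_distrib]
    congr 1
    refine sum_congr rfl fun p _ => ?_
    ring
  obtain ⟨Y0, hY0⟩ := mer_of_avg (fun p => (p : ℝ) * hf f p) hr ε₁ β η hε₁ hβ hη
  have hprime : ∀ (Y : ℕ) (ζ : ℝ), ∀ p ∈ PZ Y ζ, p.Prime := by
    intro Y ζ p hp
    unfold PZ at hp
    exact (mem_filter.1 hp).2.1
  refine ⟨Y0, fun Y hY => ⟨fun p hp => ?_, fun p hp => ?_, fun p hp hκ => ?_, ?_⟩⟩
  · exact (key2 hRT hfix p (hprime _ _ p hp)).1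
  · exact (key2 hRT hfix p (hprime _ _ p hp)).2.1
  · have hpp := hprime _ _ p hp
    refine (key2 hRT hfix p hpp).2.2.1.trans ?_
    have h2 : (2 : ℝ) ≤ p := by exact_mod_cast hpp.two_le
    exact div_le_div_of_nonneg_left (Nat.cast_nonneg _) (by linarith) (by linarith)
  · intro a b ha hab hb
    have h1 := hY0 Y hY a b ha hab hb
    have h2 : ∑ p ∈ (pr Y ε₁ β).filter (fun p => a ≤ tt Y p ∧ tt Y p < b), (p : ℝ) * hf f p / p =
        ∑ p ∈ (pr Y ε₁ β).filter (fun p => a ≤ tt Y p ∧ tt Y p < b), hf f p := by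
      refine sum_congr rfl fun p hp => ?_
      have h3 : p.Prime := by
        have h4 := (mem_filter.1 hp).1
        unfold pr at h4
        exact (mem_filter.1 h4).2.1
      have h4 : (p : ℝ) ≠ 0 := by exact_mod_cast h3.ne_zero
      rw [mul_div_assoc, mul_comm, div_mul_cancel₀ _ h4]
    rw [h2] at h1
    exact h1

end Pool.Agent.H525.PV.X
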