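import Pool.Agent.H525.PV.Main

set_option autoImplicit false
set_option linter.unusedSectionVars false

/-! # Almost prime values of polynomials in short cubes of number fields: the unit values are left out -/

namespace Pool.Agent.H525.PV

open Finset NumberField Filter Polynomial
open Pool.Agent.H525.NF
open Pool.Agent.H525.SH (units_card)

open scoped Classical

/-- the fibres of `f` -/
theorem fibre_card {K : Type} [Field K] [NumberField K] (f : (𝓞 K)[X]) (hf : 1 ≤ f.natDegree)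
    (S : Finset (𝓞 K)) (u : 𝓞 K) : (S.filter (fun z => f.eval z = u)).card ≤ f.natDegree := by
  have h0 : f - C u ≠ 0 := by
    intro h
    rw [sub_eq_zero] at h
    rw [h, natDegree_C] at hf
    omega
  have h1 : S.filter (fun z => f.eval z = u) ⊆ (f - C u).roots.toFinset := by
    intro z hz
    rw [mem_filter] at hz
    rw [Multiset.mem_toFinset, mem_roots h0, IsRoot.def, eval_sub, eval_C, hz.2, sub_self]
  refine (Finset.card_le_card h1).trans ((Multiset.toFinset_card_le _).trans ((card_roots' _).trans ?_))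
  exact natDegree_sub_C.le

theorem fin (hIE : S_IE2) (hSQ : S_SQ2) (hCOND : S_COND2) (hVLOW : S_VLOW2) (hERR : S_ERR2)
    (K : Type) [Field K] [NumberField K] (f : (𝓞 K)[X]) (hf1 : NoFix f)
    (hf2 : Irreducible (f.map (algebraMap (𝓞 K) K))) (hf3 : 1 ≤ f.natDegree) (r : ℕ) (θ : ℝ)
    (h1 : 4 * (f.natDegree : ℝ) / (3 * r + 1) < θ) (h2 : θ ≤ 1) :
    ∃ κ : ℝ, 0 < κ ∧ ∃ T₀ : ℝ, ∀ T : ℝ, T₀ ≤ T → ∀ z₀ : 𝓞 K,
      (∀ σ : K →ₐ[ℚ] ℂ, ‖σ (z₀ : K)‖ ≤ T) →
      ∃ S : Finset (𝓞 K), κ * (T ^ θ) ^ Module.finrank ℚ K / Real.log T ≤ (S.card : ℝ) ∧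
        ∀ z ∈ S, (∀ σ : K →ₐ[ℚ] ℂ, ‖σ ((z - z₀ : 𝓞 K) : K)‖ ≤ T ^ θ) ∧ f.eval z ≠ 0 ∧
          ¬ IsUnit (f.eval z) ∧ (Algebra.norm ℤ (f.eval z)).natAbs.primeFactorsList.length ≤ r ∧
          ∀ p : ℕ, p.Prime → p ∣ (Algebra.norm ℤ (f.eval z)).natAbs →
            (T ^ θ) ^ ((Module.finrank ℚ K : ℝ) / 5) ≤ (p : ℝ) := by
  have hgr : (1:ℝ) ≤ f.natDegree := by exact_mod_cast hf3
  have hθ0 : 0 < θ := lt_trans (by positivity) h1
  obtain ⟨κ, hκ, T₀, h⟩ := main hIE hSQ hCOND hVLOW hERR K f hf1 hf2 hf3 r θ h1 h2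
  obtain ⟨C, hC, hU⟩ := units_card K
  obtain ⟨Cf, hCf, hval⟩ := value_bound f
  set d := Module.finrank ℚ K with hd
  have hd0 : 0 < d := Module.finrank_pos
  have hdr : (1:ℝ) ≤ d := by exact_mod_cast hd0
  set g := f.natDegree with hg
  set E : ℝ := d * (Cf + 2 * g) + 2 with hE
  have hE0 : 0 < E := by positivity
  have hlo := isLittleO_log_rpow_rpow_atTop ((d : ℝ) + 1) hθ0
  have hc0 : 0 < κ / (2 * (g * C * E ^ d)) := by positivity
  have hlo2 := hlo.bound hc0
  obtain ⟨T₁, hT₁⟩ := eventually_atTop.1 (hlo2.and (eventually_ge_atTop (3 : ℝ)))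
  refine ⟨κ / 2, by positivity, max T₀ T₁, ?_⟩
  intro T hT z₀ hz₀
  obtain ⟨S, hS1, hS2⟩ := h T ((le_max_left _ _).trans hT) z₀ hz₀
  obtain ⟨t1, t2⟩ := hT₁ T ((le_max_right _ _).trans hT)
  have hT0 : 0 < T := by linarith
  have hlT : 1 < Real.log T := by
    rw [Real.lt_log_iff_exp_lt hT0]
    linarith [Real.exp_one_lt_d9]
  have hH1 : 1 ≤ T ^ θ := Real.one_le_rpow (by linarith) hθ0.le
  have hHT : T ^ θ ≤ T := by
    calc T ^ θ ≤ T ^ (1:ℝ) := Real.rpow_le_rpow_of_exponent_le (by linarith) h2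
      _ = T := Real.rpow_one _
  have hB1 : 1 ≤ Cf * (2 * T) ^ g :=
    one_le_mul_of_one_le_of_one_le hCf (one_le_pow₀ (by linarith))
  refine ⟨S.filter (fun z => ¬ IsUnit (f.eval z)), ?_, ?_⟩
  · have e1 : (((S.filter (fun z => IsUnit (f.eval z))).card : ℕ) : ℝ) ≤
        g * (C * (d * Real.log (Cf * (2 * T) ^ g) + 2) ^ d) := by
      set S₁ := S.filter (fun z => IsUnit (f.eval z)) with hS₁
      have e2 : S₁.card ≤ g * (S₁.image (fun z => f.eval z)).card := by
        apply Finset.card_le_mul_card_image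
        intro u _
        exact fibre_card f hf3 S₁ u
      have e3 : ((S₁.image (fun z => f.eval z)).card : ℝ) ≤
          C * (d * Real.log (Cf * (2 * T) ^ g) + 2) ^ d := by
        apply hU _ _ hB1
        intro x hx
        rw [mem_image] at hx
        obtain ⟨z, hz, rfl⟩ := hx
        rw [hS₁, mem_filter] at hz
        refine ⟨hz.2, fun σ => ?_⟩
        apply hval z (2 * T) (by linarith)
        intro σ
        have e2 : σ (z : K) = σ ((z - z₀ : 𝓞 K) : K) + σ (z₀ : K) := by
          rw [← map_add]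
          congr 1
          push_cast
          ring
        rw [e2]
        refine (norm_add_le _ _).trans ?_
        linarith [(hS2 z hz.1).1 σ, hz₀ σ]
      have e4 : (S₁.card : ℝ) ≤ g * (S₁.image (fun z => f.eval z)).card := by exact_mod_cast e2
      exact e4.trans (mul_le_mul_of_nonneg_left e3 (by linarith))
    have e3 : g * (C * (d * Real.log (Cf * (2 * T) ^ g) + 2) ^ d) ≤ κ / 2 * (T ^ θ) ^ d / Real.log T := by
      have f1 : Real.log (Cf * (2 * T) ^ g) ≤ (Cf + 2 * g) * Real.log T := by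
        rw [Real.log_mul (by linarith) (by positivity), Real.log_pow,
          Real.log_mul (by norm_num) hT0.ne']
        have g1 : Real.log 2 ≤ Real.log T := Real.log_le_log (by norm_num) (by linarith)
        have g2 : Real.log Cf ≤ Cf := (Real.log_le_sub_one_of_pos (by linarith)).trans (by linarith)
        have g3 : Cf ≤ Cf * Real.log T := by nlinarith
        have g4 : (g : ℝ) * (Real.log 2 + Real.log T) ≤ g * (2 * Real.log T) :=
          mul_le_mul_of_nonneg_left (by linarith) (by linarith)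
        linarith
      have f0 : 0 ≤ Real.log (Cf * (2 * T) ^ g) := Real.log_nonneg hB1
      have f2 : d * Real.log (Cf * (2 * T) ^ g) + 2 ≤ E * Real.log T := by
        rw [hE]
        have : (d : ℝ) * Real.log (Cf * (2 * T) ^ g) ≤ d * ((Cf + 2 * g) * Real.log T) :=
          mul_le_mul_of_nonneg_left f1 (by linarith)
        linarith
      have f3 : (d * Real.log (Cf * (2 * T) ^ g) + 2) ^ d ≤ E ^ d * Real.log T ^ d := by
        rw [← mul_pow]
        exact pow_le_pow_left₀ (by positivity) f2 d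
      rw [le_div_iff₀ (by linarith)]
      rw [Real.norm_of_nonneg (Real.rpow_nonneg (by linarith) _),
        Real.norm_of_nonneg (Real.rpow_nonneg (by linarith) _)] at t1
      have f4 : Real.log T ^ ((d : ℝ) + 1) = Real.log T ^ d * Real.log T := by
        rw [Real.rpow_add (by linarith), Real.rpow_natCast, Real.rpow_one]
      rw [f4] at t1
      have f5 : T ^ θ ≤ (T ^ θ) ^ d := le_self_pow₀ hH1 hd0.ne'
      calc g * (C * (d * Real.log (Cf * (2 * T) ^ g) + 2) ^ d) * Real.log T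
          ≤ g * (C * (E ^ d * Real.log T ^ d)) * Real.log T := by gcongr
        _ = g * C * E ^ d * (Real.log T ^ d * Real.log T) := by ring
        _ ≤ g * C * E ^ d * (κ / (2 * (g * C * E ^ d)) * T ^ θ) := by gcongr
        _ = κ / 2 * T ^ θ := by field_simp
        _ ≤ κ / 2 * (T ^ θ) ^ d := by gcongr
    have e4 := S.card_filter_add_card_filter_not (fun z => IsUnit (f.eval z))
    have e5 : (((S.filter (fun z => IsUnit (f.eval z))).card : ℕ) : ℝ) +
        (((S.filter (fun z => ¬ IsUnit (f.eval z))).card : ℕ) : ℝ) = S.card := by exact_mod_cast e4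
    have e6 : κ * (T ^ θ) ^ d / Real.log T = 2 * (κ / 2 * (T ^ θ) ^ d / Real.log T) := by ring
    linarith
  · intro z hz
    rw [mem_filter] at hz
    obtain ⟨g1, g2, g3, g4⟩ := hS2 z hz.1
    exact ⟨g1, g2, hz.2, g3, g4⟩

end Pool.Agent.H525.PV
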