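import Pool.Agent.H525.PV.Stm
import Pool.Agent.H525.SH.IE
import Pool.Agent.H525.SH.PAF

set_option autoImplicit false

/-! # Inclusion and exclusion over the prime ideals above a set of prime numbers, values of polynomials -/

namespace Pool.Agent.H525.PV.X

open Finset NumberField Polynomial
open Pool.Agent.H525.SH (PA)
open Pool.Agent.H525.PV

open scoped Classical

/-- the index set -/
noncomputable def IX {α β : Type} [Fintype α] (S : α → Finset β) : Finset (α → Option β) :=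
  (Fintype.piFinset (fun a : α => insertNone (S a))).erase (fun _ => none)

theorem ix_ne {α β : Type} [Fintype α] {S : α → Finset β} {ω : α → Option β} (h : ω ∈ IX S) :
    ∃ a r, ω a = some r := by
  unfold IX at h
  rw [mem_erase] at h
  by_contra hcon
  push Not at hcon
  apply h.1
  funext a
  rcases h' : ω a with _ | r
  · rfl
  · exact absurd h' (hcon a r)

theorem ix_card {α β : Type} [Fintype α] (S : α → Finset β) (g : ℕ) (hg : ∀ a, (S a).card ≤ g) :
    (IX S).card ≤ (g + 1) ^ Fintype.card α := by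
  unfold IX
  refine card_erase_le.trans ?_
  rw [Fintype.card_piFinset]
  have h1 : ∏ a : α, (insertNone (S a)).card ≤ ∏ _a : α, (g + 1) := by
    refine prod_le_prod' fun a _ => ?_
    rw [card_insertNone]
    exact Nat.succ_le_succ (hg a)
  refine h1.trans ?_
  rw [prod_const, card_univ]

/-- expansion of one factor -/
theorem one_factor2 {α β : Type} [Fintype α] (S : α → Finset β) (x : α → β → ℝ) :
    1 - ∏ a : α, (1 - ∑ r ∈ S a, x a r) =
      ∑ ω : ↥(IX S),
        (-∏ a : α, (ω.1 a).elim (1 : ℝ) (fun _ => -1)) * ∏ a : α, (ω.1 a).elim 1 (x a) := by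
  unfold IX
  have h1 : ∀ a : α, (1 - ∑ r ∈ S a, x a r) = ∑ o ∈ insertNone (S a), o.elim 1 (fun r => -x a r) := by
    intro a
    rw [sum_insertNone]
    simp [sub_eq_add_neg]
  have h2 : ∏ a : α, (1 - ∑ r ∈ S a, x a r) =
      ∑ ω ∈ Fintype.piFinset (fun a : α => insertNone (S a)),
        ∏ a : α, (ω a).elim 1 (fun r => -x a r) := by
    rw [prod_congr rfl fun a _ => h1 a, prod_univ_sum]
  have h3 : (fun _ : α => (none : Option β)) ∈ Fintype.piFinset (fun a : α => insertNone (S a)) := by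
    rw [Fintype.mem_piFinset]
    intro a
    exact none_mem_insertNone
  rw [h2, ← add_sum_erase _ _ h3]
  rw [sum_coe_sort ((Fintype.piFinset (fun a : α => insertNone (S a))).erase (fun _ => none))
    (fun ω => (-∏ a : α, (ω a).elim (1 : ℝ) (fun _ => -1)) * ∏ a : α, (ω a).elim 1 (x a))]
  have h4 : ∏ a : α, ((none : Option β)).elim 1 (fun r => -x a r) = 1 := by simp
  rw [h4, sub_add_cancel_left, ← sum_neg_distrib]
  refine sum_congr rfl fun ω _ => ?_
  rw [neg_mul, ← prod_mul_distrib]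
  congr 1
  refine prod_congr rfl fun a _ => ?_
  cases ω a <;> simp

variable {K : Type} [Field K] [NumberField K]

/-- representatives of the roots -/
theorem roots_rep (f : (𝓞 K)[X]) (P : Ideal (𝓞 K)) (hP : P ≠ ⊥) :
    ∃ S : Finset (𝓞 K), S.card = rt f P ∧ ∀ z : 𝓞 K, (if f.eval z ∈ P then (1 : ℝ) else 0) =
      ∑ r ∈ S, if z - r ∈ P then 1 else 0 := by
  have hfin : Finite (𝓞 K ⧸ P) := Ideal.finiteQuotientOfFreeOfNeBot P hP
  let R := {r : 𝓞 K ⧸ P // (f.map (Ideal.Quotient.mk P)).eval r = 0}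
  have hfR : Finite R := inferInstance
  have : Fintype R := Fintype.ofFinite R
  have hout : ∀ r : 𝓞 K ⧸ P, Ideal.Quotient.mk P (Quotient.out r) = r := fun r => Quotient.out_eq' r
  have hinj : Function.Injective (fun r : R => Quotient.out r.1) := by
    intro r s h
    apply Subtype.ext
    rw [← hout r.1, ← hout s.1]
    exact congrArg _ h
  have hz0 : ∀ z : 𝓞 K, f.eval z ∈ P ↔
      (f.map (Ideal.Quotient.mk P)).eval (Ideal.Quotient.mk P z) = 0 := by
    intro z
    rw [eval_map, eval₂_at_apply, Ideal.Quotient.eq_zero_iff_mem]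
  refine ⟨univ.image (fun r : R => Quotient.out r.1), ?_, fun z => ?_⟩
  · rw [card_image_of_injective _ hinj, card_univ, rt, Nat.card_eq_fintype_card]
  · rw [sum_image (fun r _ s _ h => hinj h)]
    have h1 : ∀ r : R, (z - Quotient.out r.1 ∈ P) ↔ Ideal.Quotient.mk P z = r.1 := by
      intro r
      rw [← Ideal.Quotient.eq, hout]
    by_cases hz : f.eval z ∈ P
    · rw [if_pos hz]
      have hr := (hz0 z).1 hz
      rw [sum_eq_single (⟨Ideal.Quotient.mk P z, hr⟩ : R)]
      · rw [if_pos ((h1 _).2 rfl)]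
      · intro b _ hb
        rw [if_neg]
        intro h
        exact hb (Subtype.ext ((h1 b).1 h).symm)
      · intro h
        exact absurd (mem_univ _) h
    · rw [if_neg hz]
      symm
      apply sum_eq_zero
      intro r _
      rw [if_neg]
      intro h
      apply hz
      rw [hz0, (h1 r).1 h]
      exact r.2

/-- the exponent -/
def en {β : Type} (o : Option β) : ℕ := o.elim 0 (fun _ => 1)

theorem one_prime (hRT : S_RT) (f : (𝓞 K)[X]) (hnf : NoFix f) (p : ℕ) (hp : p.Prime) :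
    ∃ (J : Type) (_ : Fintype J) (I : J → Ideal (𝓞 K)) (v : J → 𝓞 K) (c : J → ℝ),
      Fintype.card J ≤ (f.natDegree + 1) ^ Module.finrank ℚ K ∧
      (∀ j, |c j| ≤ 1 ∧ I j ≠ ⊥ ∧ p ∣ Ideal.absNorm (I j)) ∧
      (∀ z : 𝓞 K, (if p ∣ (Algebra.norm ℤ (f.eval z)).natAbs then (1 : ℝ) else 0) =
        ∑ j, c j * (if z - v j ∈ I j then 1 else 0)) ∧
      hf f p = ∑ j, c j / (Ideal.absNorm (I j) : ℝ) ∧
      (∀ j, ∀ I' : Ideal (𝓞 K), (∀ P : Ideal (𝓞 K), ((p : ℕ) : 𝓞 K) ∈ P → IsCoprime I' P) →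
        IsCoprime I' (I j)) := by
  obtain ⟨a1, a2, a3, a4⟩ := Pool.Agent.H525.SH.X.t_PAF K p hp
  have hne : ∀ a : ↥(PA K p), a.1 ≠ ⊥ := by
    intro a ha
    obtain ⟨e, he, h⟩ := a2 a.1 a.2
    rw [ha, Ideal.absNorm_bot] at h
    exact absurd h.symm (pow_ne_zero _ hp.ne_zero)
  have hprime : ∀ a : ↥(PA K p), Prime a.1 := fun a =>
    Ideal.prime_of_isPrime (hne a) ((a1 a.1).1 a.2).1
  have hmem : ∀ a : ↥(PA K p), ((p : ℕ) : 𝓞 K) ∈ a.1 := fun a => ((a1 a.1).1 a.2).2
  have hdist : ∀ᵉ (i ∈ (univ : Finset ↥(PA K p))) (j ∈ (univ : Finset ↥(PA K p))), i ≠ j →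
      i.1 ≠ j.1 := fun i _ j _ h h' => h (Subtype.ext h')
  choose S hS1 hS2 using fun a : ↥(PA K p) => roots_rep f a.1 (hne a)
  -- the Chinese remainder theorem
  have hcrt : ∀ ω : ↥(PA K p) → Option (𝓞 K), ∃ v : 𝓞 K, ∀ a : ↥(PA K p), ∀ r, ω a = some r →
      v - r ∈ a.1 := by
    intro ω
    obtain ⟨y, hy⟩ := IsDedekindDomain.exists_forall_sub_mem_ideal (s := univ)
      (fun a : ↥(PA K p) => a.1) (fun _ => 1) (fun i _ => hprime i) hdist
      (fun a => (ω a.1).getD 0)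
    refine ⟨y, fun a r hr => ?_⟩
    have := hy a (mem_univ _)
    rw [pow_one] at this
    simpa [hr] using this
  choose v hv using hcrt
  -- membership
  have hI : ∀ (ω : ↥(PA K p) → Option (𝓞 K)) (z : 𝓞 K),
      z - v ω ∈ ∏ a : ↥(PA K p), a.1 ^ en (ω a) ↔ ∀ a r, ω a = some r → z - r ∈ a.1 := by
    intro ω z
    rw [← IsDedekindDomain.inf_pow_eq_prod_of_prime univ (fun a : ↥(PA K p) => a.1)
      (fun a => en (ω a)) (fun i _ => hprime i) hdist, Submodule.mem_finsetInf]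
    constructor
    · intro h a r hr
      have h1 := h a (mem_univ _)
      have h2 : en (ω a) = 1 := by rw [hr]; rfl
      simp only [h2, pow_one] at h1
      have h3 := a.1.add_mem h1 (hv ω a r hr)
      have h4 : z - v ω + (v ω - r) = z - r := by ring
      rwa [h4] at h3
    · intro h a _
      rcases hω : ω a with _ | r
      · simp [en]
      · have h1 : en (some r) = 1 := rfl
        simp only [h1, pow_one]
        have h3 := a.1.sub_mem (h a r hω) (hv ω a r hω)
        have h4 : z - r - (v ω - r) = z - v ω := by ring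
        rwa [h4] at h3
  refine ⟨↥(IX S), inferInstance, fun ω => ∏ a : ↥(PA K p), a.1 ^ en (ω.1 a), fun ω => v ω.1,
    fun ω => -∏ a : ↥(PA K p), (ω.1 a).elim (1 : ℝ) (fun _ => -1), ?_, ?_, ?_, ?_, ?_⟩
  · rw [Fintype.card_coe]
    refine (ix_card S f.natDegree fun a => ?_).trans ?_
    · rw [hS1]
      exact (hRT K f hnf a.1 ((a1 a.1).1 a.2).1 (hne a)).1
    · rw [Fintype.card_coe]
      exact Nat.pow_le_pow_right (Nat.succ_pos _) a3
  · intro ω
    refine ⟨?_, ?_, ?_⟩
    · rw [abs_neg, abs_prod]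
      refine prod_le_one (fun a _ => abs_nonneg _) fun a _ => ?_
      cases ω.1 a <;> simp
    · rw [Ne, ← Ideal.zero_eq_bot, prod_eq_zero_iff]
      rintro ⟨a, -, ha⟩
      exact pow_ne_zero _ (hprime a).ne_zero ha
    · obtain ⟨a, r, hr⟩ := ix_ne ω.2
      rw [map_prod]
      refine Dvd.dvd.trans ?_ (dvd_prod_of_mem _ (mem_univ a))
      have h2 : en (ω.1 a) = 1 := by rw [hr]; rfl
      rw [h2, pow_one]
      obtain ⟨e, he, h⟩ := a2 a.1 a.2
      rw [h]
      exact dvd_pow_self p (by omega)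
  · intro z
    have e2 : (if p ∣ (Algebra.norm ℤ (f.eval z)).natAbs then (1 : ℝ) else 0) =
        1 - ∏ a : ↥(PA K p), (1 - ∑ r ∈ S a, (if z - r ∈ a.1 then (1 : ℝ) else 0)) := by
      by_cases c1 : p ∣ (Algebra.norm ℤ (f.eval z)).natAbs
      · rw [if_pos c1]
        obtain ⟨P, hP, hz⟩ := (a4 _).1 c1
        rw [prod_eq_zero (mem_univ (⟨P, hP⟩ : ↥(PA K p))), sub_zero]
        rw [← hS2, if_pos hz, sub_self]
      · rw [if_neg c1, prod_eq_one, sub_self]
        intro a _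
        rw [← hS2, if_neg (fun hz => c1 ((a4 _).2 ⟨a.1, a.2, hz⟩)), sub_zero]
    rw [e2, one_factor2]
    refine sum_congr rfl fun ω _ => ?_
    have e3 : ∏ a : ↥(PA K p), (ω.1 a).elim (1 : ℝ) (fun r => if z - r ∈ a.1 then (1 : ℝ) else 0) =
        if z - v ω.1 ∈ ∏ a : ↥(PA K p), a.1 ^ en (ω.1 a) then 1 else 0 := by
      by_cases c1 : ∀ a r, ω.1 a = some r → z - r ∈ a.1
      · rw [if_pos ((hI ω.1 z).2 c1), prod_eq_one]
        intro a _
        rcases h : ω.1 a with _ | r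
        · rfl
        · exact if_pos (c1 a r h)
      · rw [if_neg (fun h => c1 ((hI ω.1 z).1 h))]
        push Not at c1
        obtain ⟨a, r, hr, hz⟩ := c1
        refine prod_eq_zero (mem_univ a) ?_
        rw [hr]
        exact if_neg hz
    rw [e3]
  · have e1 : hf f p = 1 - ∏ a : ↥(PA K p), (1 - ∑ _r ∈ S a, (1 / (Ideal.absNorm a.1 : ℝ))) := by
      rw [Pool.Agent.H525.PV.hf]
      congr 1
      rw [← prod_coe_sort (PA K p) (fun P => 1 - (rt f P : ℝ) / (Ideal.absNorm P : ℝ))]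
      refine prod_congr rfl fun a _ => ?_
      rw [sum_const, hS1, nsmul_eq_mul, mul_one_div]
    rw [e1, one_factor2]
    refine sum_congr rfl fun ω _ => ?_
    have e3 : ∏ a : ↥(PA K p), (ω.1 a).elim (1 : ℝ) (fun _ => 1 / (Ideal.absNorm a.1 : ℝ)) =
        ((Ideal.absNorm (∏ a : ↥(PA K p), a.1 ^ en (ω.1 a)) : ℕ) : ℝ)⁻¹ := by
      rw [map_prod, Nat.cast_prod, ← prod_inv_distrib]
      refine prod_congr rfl fun a _ => ?_
      rcases h : ω.1 a with _ | r
      · simp [en]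
      · simp [en]
    rw [e3, div_eq_mul_inv]
  · intro ω I' hI'
    refine IsCoprime.prod_right fun a _ => ?_
    exact (hI' a.1 (hmem a)).pow_right

theorem crt_two (I J : Ideal (𝓞 K)) (h : IsCoprime I J) (v w : 𝓞 K) :
    ∃ u : 𝓞 K, u - v ∈ I ∧ u - w ∈ J := by
  obtain ⟨a, ha, b, hb, hab⟩ := Ideal.isCoprime_iff_exists.1 h
  refine ⟨v * b + w * a, ?_, ?_⟩
  · have h1 : v * b + w * a - v = (w - v) * a := by
      have : b = 1 - a := by rw [← hab]; ring
      rw [this]; ring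
    rw [h1]
    exact I.mul_mem_left _ ha
  · have h1 : v * b + w * a - w = (v - w) * b := by
      have : a = 1 - b := by rw [← hab]; ring
      rw [this]; ring
    rw [h1]
    exact J.mul_mem_left _ hb

theorem sub_mem_iff (I : Ideal (𝓞 K)) {u v : 𝓞 K} (h : u - v ∈ I) (z : 𝓞 K) :
    z - u ∈ I ↔ z - v ∈ I := by
  constructor
  · intro h1
    have := I.add_mem h1 h
    rwa [sub_add_sub_cancel] at this
  · intro h1
    have := I.sub_mem h1 h
    have e : z - v - (u - v) = z - u := by ring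
    rwa [e] at this

theorem ie_aux (hRT : S_RT) (f : (𝓞 K)[X]) (hnf : NoFix f) (T : Finset ℕ) :
    (∀ p ∈ T, p.Prime) →
    ∃ (J : Type) (_ : Fintype J) (I : J → Ideal (𝓞 K)) (v : J → 𝓞 K) (c : J → ℝ),
    Fintype.card J ≤ ((f.natDegree + 1) ^ Module.finrank ℚ K) ^ T.card ∧
    (∀ j, |c j| ≤ 1 ∧ I j ≠ ⊥ ∧ (∏ p ∈ T, p) ∣ Ideal.absNorm (I j)) ∧
    (∀ z : 𝓞 K, (if (∏ p ∈ T, p) ∣ (Algebra.norm ℤ (f.eval z)).natAbs then (1 : ℝ) else 0) =
      ∑ j, c j * (if z - v j ∈ I j then 1 else 0)) ∧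
    ∏ p ∈ T, Pool.Agent.H525.PV.hf f p = ∑ j, c j / (Ideal.absNorm (I j) : ℝ) ∧
    (∀ j, ∀ q : ℕ, q.Prime → q ∉ T → ∀ P : Ideal (𝓞 K), ((q : ℕ) : 𝓞 K) ∈ P → IsCoprime (I j) P) := by
  induction T using Finset.induction_on with
  | empty =>
    intro _
    refine ⟨Unit, inferInstance, fun _ => ⊤, fun _ => 0, fun _ => 1, by simp, ?_, ?_, ?_, ?_⟩
    · intro j
      refine ⟨by simp, ?_, by simp⟩
      exact top_ne_bot
    · intro z; simp
    · simp
    · intro _ q _ _ P _
      rw [← Ideal.one_eq_top]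
      exact isCoprime_one_left
  | insert p T hpT ih =>
    intro hT
    have hp : p.Prime := hT p (mem_insert_self p T)
    have hT' : ∀ q ∈ T, q.Prime := fun q hq => hT q (mem_insert_of_mem hq)
    obtain ⟨J, hJ, I, v, c, h1, h2, h3, h4, h5⟩ := ih hT'
    obtain ⟨J', hJ', I', v', c', g1, g2, g3, g4, g5⟩ := one_prime hRT f hnf p hp
    have hcop : ∀ (j : J) (j' : J'), IsCoprime (I j) (I' j') := fun j j' =>
      g5 j' (I j) (fun P hP => h5 j p hp hpT P hP)
    choose u hu1 hu2 using fun (j : J) (j' : J') => crt_two (I j) (I' j') (hcop j j') (v j) (v' j')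
    have hmem2 : ∀ (j : J) (j' : J') (z : 𝓞 K),
        z - u j j' ∈ I j * I' j' ↔ z - v j ∈ I j ∧ z - v' j' ∈ I' j' := by
      intro j j' z
      rw [Ideal.mul_eq_inf_of_coprime (Ideal.isCoprime_iff_sup_eq.1 (hcop j j')), Ideal.mem_inf,
        sub_mem_iff _ (hu1 j j'), sub_mem_iff _ (hu2 j j')]
    have hcopn : p.Coprime (∏ q ∈ T, q) := by
      refine Nat.Coprime.prod_right fun q hq => ?_
      refine (Nat.coprime_primes hp (hT' q hq)).2 ?_
      rintro rfl
      exact hpT hq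
    refine ⟨J × J', inferInstance, fun x => I x.1 * I' x.2, fun x => u x.1 x.2,
      fun x => c x.1 * c' x.2, ?_, ?_, ?_, ?_, ?_⟩
    · rw [Fintype.card_prod, card_insert_of_notMem hpT, pow_succ]
      exact Nat.mul_le_mul h1 g1
    · rintro ⟨j, j'⟩
      obtain ⟨b1, b2, b3⟩ := h2 j
      obtain ⟨d1, d2, d3⟩ := g2 j'
      refine ⟨?_, ?_, ?_⟩
      · simp only
        rw [abs_mul]
        exact mul_le_one₀ b1 (abs_nonneg _) d1
      · simp only
        exact mul_ne_zero b2 d2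
      · simp only
        rw [prod_insert hpT, map_mul, mul_comm p]
        exact mul_dvd_mul b3 d3
    · intro z
      have e1 : (if (∏ q ∈ insert p T, q) ∣ (Algebra.norm ℤ (f.eval z)).natAbs then (1 : ℝ) else 0) =
          (if (∏ q ∈ T, q) ∣ (Algebra.norm ℤ (f.eval z)).natAbs then (1 : ℝ) else 0) *
            (if p ∣ (Algebra.norm ℤ (f.eval z)).natAbs then (1 : ℝ) else 0) := by
        rw [prod_insert hpT]
        by_cases c1 : p ∣ (Algebra.norm ℤ (f.eval z)).natAbs
        · by_cases c2 : (∏ q ∈ T, q) ∣ (Algebra.norm ℤ (f.eval z)).natAbs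
          · rw [if_pos (hcopn.mul_dvd_of_dvd_of_dvd c1 c2), if_pos c1, if_pos c2, one_mul]
          · rw [if_neg c2, if_neg (fun h => c2 ((dvd_mul_left _ _).trans h)), zero_mul]
        · rw [if_neg c1, if_neg (fun h => c1 ((dvd_mul_right _ _).trans h)), mul_zero]
      rw [e1, h3 z, g3 z, sum_mul_sum, ← Fintype.sum_prod_type']
      refine sum_congr rfl fun x _ => ?_
      by_cases c1 : z - v x.1 ∈ I x.1
      · by_cases c2 : z - v' x.2 ∈ I' x.2
        · rw [if_pos c1, if_pos c2, if_pos ((hmem2 x.1 x.2 z).2 ⟨c1, c2⟩)]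
          ring
        · rw [if_neg c2, if_neg (fun h => c2 ((hmem2 x.1 x.2 z).1 h).2)]
          ring
      · rw [if_neg c1, if_neg (fun h => c1 ((hmem2 x.1 x.2 z).1 h).1)]
        ring
    · rw [prod_insert hpT, h4, g4, mul_comm, sum_mul_sum, ← Fintype.sum_prod_type']
      refine sum_congr rfl fun x _ => ?_
      rw [map_mul, Nat.cast_mul, div_mul_div_comm]
    · rintro ⟨j, j'⟩ q hq hqT P hP
      rw [mem_insert, not_or] at hqT
      refine IsCoprime.mul_left (h5 j q hq hqT.2 P hP) ?_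
      refine (g5 j' P fun Q hQ => ?_).symm
      exact Pool.Agent.H525.SH.X.coprime_of_ne hq hp hqT.1 hP hQ

theorem t_IE2 (hRT : Pool.Agent.H525.PV.S_RT) : Pool.Agent.H525.PV.S_IE2 := by
  intro K _ _ f hf T hT
  obtain ⟨J, hJ, I, v, c, h1, h2, h3, h4, -⟩ := ie_aux hRT f hf T hT
  exact ⟨J, hJ, I, v, c, h1, h2, h3, h4⟩

end Pool.Agent.H525.PV.X
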