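import Pool.Agent.H525.PV.Siev
import Pool.Agent.H525.SH.Fin

set_option autoImplicit false
set_option linter.unusedSectionVars false

/-! # Almost prime values of polynomials in short cubes of number fields -/

namespace Pool.Agent.H525.PV

open Finset NumberField Filter Polynomial
open Pool.Agent.W23.DC Pool.Agent.Y882 Pool.Agent.Y677.KU
open Pool.Agent.H525.NF
open Pool.Agent.H525.SH (PA S_LAT cfi exists_index few_factors units_card)

open scoped Classical

/-- the parameters -/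
theorem params (r g : ℕ) (hg : 1 ≤ g) (θ : ℝ) (h1 : 4 * (g : ℝ) / (3 * r + 1) < θ) (h2 : θ ≤ 1) :
    ∃ τ ζ β : ℝ, 0 < ζ ∧ 2 * ζ < τ ∧ τ ≤ 4 * ζ ∧ τ < 1 ∧ ζ ≤ β ∧ ζ + β < τ ∧ 1 / 5 < ζ ∧
      (g : ℝ) < (ζ + r * β) * θ := by
  have hg0 : (1:ℝ) ≤ g := by exact_mod_cast hg
  have hθ0 : 0 < θ := lt_trans (by positivity) h1
  have hr0 : (1:ℝ) ≤ r := by
    rw [div_lt_iff₀ (by positivity)] at h1
    have h3 : θ * (3 * (r:ℝ) + 1) ≤ 1 * (3 * (r : ℝ) + 1) :=
      mul_le_mul_of_nonneg_right h2 (by positivity)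
    linarith
  set u : ℝ := (3 * r + 1) * θ / (4 * g) with hu
  have hu1 : 1 < u := by
    rw [div_lt_iff₀ (by positivity)] at h1
    rw [hu, lt_div_iff₀ (by positivity)]
    linarith
  have hu0 : 0 < u := by linarith
  set m : ℝ := max (1 / u) (4 / 5) with hm
  have hm1 : m < 1 := max_lt (by rw [div_lt_one hu0]; exact hu1) (by norm_num)
  have hmu : 1 / u ≤ m := le_max_left _ _
  have hm5 : 4 / 5 ≤ m := le_max_right _ _
  set τ : ℝ := (1 + m) / 2 with hτ
  have hτ1 : τ < 1 := by rw [hτ]; linarith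
  have hτm : m < τ := by rw [hτ]; linarith
  have hτu : 1 < τ * u := by
    have h2 : 1 / u < τ := lt_of_le_of_lt hmu hτm
    rwa [div_lt_iff₀ hu0] at h2
  set ν : ℝ := min ((τ * u - 1) / (2 * r * θ)) (τ / 8) with hν
  have hν0 : 0 < ν := lt_min (div_pos (by linarith) (by positivity)) (by linarith)
  have hν1 : ν * (2 * r * θ) ≤ τ * u - 1 := by
    have h2 : ν ≤ (τ * u - 1) / (2 * r * θ) := min_le_left _ _
    rwa [le_div_iff₀ (by positivity)] at h2
  have hν2 : ν ≤ τ / 8 := min_le_right _ _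
  refine ⟨τ, τ / 4, 3 * τ / 4 - ν, by linarith, by linarith, by linarith, hτ1, by linarith, by linarith,
    by linarith, ?_⟩
  have h3 : (τ / 4 + r * (3 * τ / 4 - ν)) * θ = g * (τ * u) - ν * (2 * r * θ) / 2 := by
    rw [hu]
    field_simp
    ring
  rw [h3]
  have h4 : (τ * u - 1) * 1 ≤ (τ * u - 1) * g := mul_le_mul_of_nonneg_left hg0 (by linarith)
  nlinarith

/-- the size of the values of `f` -/
theorem value_bound {K : Type} [Field K] [NumberField K] (f : (𝓞 K)[X]) : ∃ C : ℝ, 1 ≤ C ∧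
    ∀ (z : 𝓞 K) (B : ℝ), 1 ≤ B → (∀ σ : K →ₐ[ℚ] ℂ, ‖σ (z : K)‖ ≤ B) →
      ∀ σ : K →ₐ[ℚ] ℂ, ‖σ ((f.eval z : 𝓞 K) : K)‖ ≤ C * B ^ f.natDegree := by
  refine ⟨1 + ∑ k ∈ range (f.natDegree + 1), ∑ σ : K →ₐ[ℚ] ℂ, ‖σ ((f.coeff k : 𝓞 K) : K)‖, ?_, ?_⟩
  · have : 0 ≤ ∑ k ∈ range (f.natDegree + 1), ∑ σ : K →ₐ[ℚ] ℂ, ‖σ ((f.coeff k : 𝓞 K) : K)‖ :=
      Finset.sum_nonneg (fun _ _ => Finset.sum_nonneg (fun _ _ => norm_nonneg _))
    linarith
  intro z B hB hz σ
  have e1 : σ ((f.eval z : 𝓞 K) : K) = ∑ k ∈ range (f.natDegree + 1),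
      σ ((f.coeff k : 𝓞 K) : K) * σ (z : K) ^ k := by
    rw [Polynomial.eval_eq_sum_range]
    push_cast
    rw [map_sum]
    apply Finset.sum_congr rfl
    intro k _
    rw [map_mul, map_pow]
  rw [e1]
  refine (norm_sum_le _ _).trans ?_
  rw [add_mul, one_mul, Finset.sum_mul]
  have e2 : ∀ k ∈ range (f.natDegree + 1), ‖σ ((f.coeff k : 𝓞 K) : K) * σ (z : K) ^ k‖ ≤
      (∑ σ : K →ₐ[ℚ] ℂ, ‖σ ((f.coeff k : 𝓞 K) : K)‖) * B ^ f.natDegree := by
    intro k hk
    rw [mem_range] at hk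
    rw [norm_mul, norm_pow]
    apply mul_le_mul
    · exact Finset.single_le_sum (f := fun σ : K →ₐ[ℚ] ℂ => ‖σ ((f.coeff k : 𝓞 K) : K)‖)
        (fun _ _ => norm_nonneg _) (Finset.mem_univ σ)
    · exact (pow_le_pow_left₀ (norm_nonneg _) (hz σ) k).trans (pow_le_pow_right₀ hB (by omega))
    · positivity
    · exact Finset.sum_nonneg (fun _ _ => norm_nonneg _)
  have e3 : 0 ≤ B ^ f.natDegree := by positivity
  linarith [Finset.sum_le_sum e2]

theorem main (hIE : S_IE2) (hSQ : S_SQ2) (hCOND : S_COND2) (hVLOW : S_VLOW2) (hERR : S_ERR2)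
    (K : Type) [Field K] [NumberField K] (f : (𝓞 K)[X]) (hf1 : NoFix f)
    (hf2 : Irreducible (f.map (algebraMap (𝓞 K) K))) (hf3 : 1 ≤ f.natDegree) (r : ℕ) (θ : ℝ)
    (h1 : 4 * (f.natDegree : ℝ) / (3 * r + 1) < θ) (h2 : θ ≤ 1) :
    ∃ κ : ℝ, 0 < κ ∧ ∃ T₀ : ℝ, ∀ T : ℝ, T₀ ≤ T → ∀ z₀ : 𝓞 K,
      (∀ σ : K →ₐ[ℚ] ℂ, ‖σ (z₀ : K)‖ ≤ T) →
      ∃ S : Finset (𝓞 K), κ * (T ^ θ) ^ Module.finrank ℚ K / Real.log T ≤ (S.card : ℝ) ∧
        ∀ z ∈ S, (∀ σ : K →ₐ[ℚ] ℂ, ‖σ ((z - z₀ : 𝓞 K) : K)‖ ≤ T ^ θ) ∧ f.eval z ≠ 0 ∧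
          (Algebra.norm ℤ (f.eval z)).natAbs.primeFactorsList.length ≤ r ∧
          ∀ p : ℕ, p.Prime → p ∣ (Algebra.norm ℤ (f.eval z)).natAbs →
            (T ^ θ) ^ ((Module.finrank ℚ K : ℝ) / 5) ≤ (p : ℝ) := by
  have hθ0 : 0 < θ := lt_trans (by positivity) h1
  set bs := RingOfIntegers.basis K with hbs
  have hcard : Fintype.card (Module.Free.ChooseBasisIndex ℤ (𝓞 K)) = Module.finrank ℚ K := by
    rw [← Module.finrank_eq_card_chooseBasisIndex, RingOfIntegers.rank]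
  obtain ⟨C₁, hC₁, hemb⟩ := emb_bound (fun i => bs i)
  obtain ⟨τ, ζ, β, hζ, k2, k4, hτ, hζβ, hβ, hζ5, hζr⟩ := params r f.natDegree hf3 θ h1 h2
  obtain ⟨c, hc, W0, hW0⟩ := sieve hIE Pool.Agent.H525.SH.X.t_LAT hSQ hCOND hVLOW hERR K _ bs hcard f hf1 hf2 hf3
    τ ζ β hζ k2 k4 hτ hζβ hβ
  set d := Module.finrank ℚ K with hd
  have hd0 : 0 < d := Module.finrank_pos
  have hdr : (1:ℝ) ≤ d := by exact_mod_cast hd0
  rw [hcard] at hW0
  have hC₁0 : 0 < C₁ := by linarith
  -- asymptotics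
  have hTθ : Tendsto (fun T : ℝ => T ^ θ) atTop atTop := tendsto_rpow_atTop hθ0
  obtain ⟨Cf, hCf, hval⟩ := value_bound f
  set g := f.natDegree with hg
  have hgr : (1:ℝ) ≤ g := by exact_mod_cast hf3
  set A : ℝ := Real.log Cf + g * Real.log 2 + (ζ + r * β) * Real.log (2 * C₁) with hA
  obtain ⟨T₁, hT₁⟩ := eventually_atTop.1 ((hTθ.eventually_ge_atTop (2 * C₁ * (W0 + 3))).and
    ((Real.tendsto_log_atTop.eventually_ge_atTop (A / ((ζ + r * β) * θ - g) + 1)).and
      ((Real.tendsto_log_atTop.eventually_ge_atTop (Real.log (2 * C₁) * ζ / (θ * (ζ - 1 / 5)) + 1)).and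
        ((eventually_ge_atTop (3:ℝ)).and (hTθ.eventually_ge_atTop 64)))))
  refine ⟨c / (d * (2 * C₁) ^ d), by positivity, T₁, ?_⟩
  intro T hT z₀ hz₀
  obtain ⟨t1, t2, t3, t4, t5⟩ := hT₁ T hT
  have hT0 : 0 < T := by linarith
  have hlT : 1 < Real.log T := by
    rw [Real.lt_log_iff_exp_lt hT0]
    linarith [Real.exp_one_lt_d9]
  have hlT0 : 0 < Real.log T := by linarith
  set H : ℝ := T ^ θ with hH
  have hH0 : 0 < H := Real.rpow_pos_of_pos hT0 _
  have hHT : H ≤ T := by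
    rw [hH]
    calc T ^ θ ≤ T ^ (1:ℝ) := Real.rpow_le_rpow_of_exponent_le (by linarith) h2
      _ = T := Real.rpow_one _
  have hlH : Real.log H = θ * Real.log T := by rw [hH, Real.log_rpow hT0]
  set W : ℕ := ⌊H / C₁⌋₊ with hW
  have hWle : C₁ * (W : ℝ) ≤ H := by
    have h3 : (W : ℝ) ≤ H / C₁ := Nat.floor_le (by positivity)
    rw [le_div_iff₀ hC₁0] at h3
    linarith
  have hWge : H / (2 * C₁) ≤ W := by
    have h3 : H / C₁ < W + 1 := Nat.lt_floor_add_one _
    have h4 : 1 ≤ H / (2 * C₁) := by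
      rw [le_div_iff₀ (by positivity)]
      have : (0:ℝ) ≤ W0 := Nat.cast_nonneg _
      nlinarith
    have h5 : H / C₁ = 2 * (H / (2 * C₁)) := by field_simp
    linarith
  have hWW0 : W0 ≤ W := by
    have h3 : ((W0 : ℝ) + 3) ≤ H / (2 * C₁) := by
      rw [le_div_iff₀ (by positivity)]
      linarith
    have h4 : (W0 : ℝ) ≤ W := by linarith
    exact_mod_cast h4
  have hW3 : (3:ℝ) ≤ W := by
    have h3 : ((W0 : ℝ) + 3) ≤ H / (2 * C₁) := by
      rw [le_div_iff₀ (by positivity)]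
      linarith
    have : (0:ℝ) ≤ W0 := Nat.cast_nonneg _
    linarith
  have hWpos : (0:ℝ) < W := by linarith
  have hWT : (W : ℝ) ≤ T := by nlinarith
  -- the coordinates of the centre
  set a : Module.Free.ChooseBasisIndex ℤ (𝓞 K) → ℤ := fun i => bs.repr z₀ i with ha
  have hz₀a : ∑ i, a i • bs i = z₀ := bs.sum_repr z₀
  set Y : ℕ := W ^ d with hY
  have hYW : (W : ℝ) ≤ Y := by
    rw [hY]
    push_cast
    exact le_self_pow₀ (by linarith) hd0.ne'
  have hY0 : (0:ℝ) < Y := by linarith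
  have hY2 : 2 ≤ Y := by
    have : (2:ℝ) ≤ Y := by linarith
    exact_mod_cast this
  have hlogY : Real.log Y = d * Real.log W := by
    rw [hY]
    push_cast
    rw [Real.log_pow]
  have hlogW : Real.log H - Real.log (2 * C₁) ≤ Real.log W := by
    rw [← Real.log_div hH0.ne' (by positivity)]
    exact Real.log_le_log (by positivity) hWge
  have hlogW2 : Real.log W ≤ Real.log T := Real.log_le_log hWpos hWT
  have hlogW0 : 0 < Real.log W := Real.log_pos (by linarith)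
  set Gd := (Box a W).filter (fun x => (∀ p ∈ PZ Y ζ, ¬ p ∣ nf f bs x) ∧
        ((pr Y ζ β).filter (fun q => q ∣ nf f bs x)).card ≤ 1 ∧
        ∀ q ∈ pr Y ζ β, ¬ q ^ 2 ∣ nf f bs x) with hGd
  have hcnt : c * (Y : ℝ) / Real.log Y ≤ (Gd.card : ℝ) := hW0 W hWW0 a
  refine ⟨Gd.image (fun x => ∑ i, x i • bs i), ?_, ?_⟩
  · rw [Finset.card_image_of_injective]
    · refine le_trans ?_ hcnt
      rw [hlogY]
      have e1 : c / (d * (2 * C₁) ^ d) * H ^ d / Real.log T = c * (H / (2 * C₁)) ^ d / (d * Real.log T) := by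
        rw [div_pow]
        field_simp
      rw [e1]
      have e2 : (H / (2 * C₁)) ^ d ≤ (Y : ℝ) := by
        rw [hY]
        push_cast
        exact pow_le_pow_left₀ (by positivity) hWge _
      apply div_le_div₀ (by positivity) (mul_le_mul_of_nonneg_left e2 hc.le) (by positivity)
      exact mul_le_mul_of_nonneg_left hlogW2 (by positivity)
    · intro x y hxy
      have e3 : bs.equivFun.symm x = bs.equivFun.symm y := by
        rw [Module.Basis.equivFun_symm_apply, Module.Basis.equivFun_symm_apply]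
        exact hxy
      exact bs.equivFun.symm.injective e3
  · intro z hz
    rw [mem_image] at hz
    obtain ⟨x, hx, rfl⟩ := hz
    rw [hGd, mem_filter, mem_Box] at hx
    obtain ⟨hx1, hx2, hx3, hx4⟩ := hx
    set z : 𝓞 K := ∑ i, x i • bs i with hzdef
    have hnm : nf f bs x = (Algebra.norm ℤ (f.eval z)).natAbs := rfl
    rw [hnm] at hx2 hx3 hx4
    have hclose : ∀ σ : K →ₐ[ℚ] ℂ, ‖σ ((z - z₀ : 𝓞 K) : K)‖ ≤ H := by
      intro σ
      have e1 : z - z₀ = th (fun i => bs i) (x - a) := by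
        rw [th_apply, hzdef, ← hz₀a, ← Finset.sum_sub_distrib]
        apply Finset.sum_congr rfl
        intro i _
        rw [Pi.sub_apply, sub_smul]
      rw [e1]
      refine (hemb σ (x - a) W hWpos.le (fun i => ?_)).trans hWle
      have e2 := hx1 i
      rw [Pi.sub_apply, abs_of_nonneg (by
        have : 0 ≤ x i - a i := by linarith [e2.1]
        exact_mod_cast this)]
      have e3 : x i - a i ≤ W := by linarith [e2.2]
      exact_mod_cast e3
    have hle : ∀ p : ℕ, p.Prime → p ∣ (Algebra.norm ℤ (f.eval z)).natAbs → (Y : ℝ) ^ ζ ≤ p := by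
      intro p hp hpd
      by_contra hcon
      push Not at hcon
      have e1 : tt Y p < ζ := (tt_lt Y p ζ hY2 hp.pos).2 hcon
      have e2 : (p : ℝ) ≤ Y := by
        refine hcon.le.trans ?_
        calc (Y : ℝ) ^ ζ ≤ (Y : ℝ) ^ (1:ℝ) := Real.rpow_le_rpow_of_exponent_le (by linarith) (by linarith)
          _ = Y := Real.rpow_one _
      exact hx2 p (mem_PZ.2 ⟨⟨hp.pos, by exact_mod_cast e2⟩, hp, e1⟩) hpd
    have hYζ : H ^ ((d : ℝ) / 5) ≤ (Y : ℝ) ^ ζ := by
      rw [← Real.log_le_log_iff (Real.rpow_pos_of_pos hH0 _) (Real.rpow_pos_of_pos hY0 _),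
        Real.log_rpow hH0, Real.log_rpow hY0, hlogY, hlH]
      have e1 : Real.log (2 * C₁) * ζ ≤ Real.log T * (θ * (ζ - 1 / 5)) := by
        have e2 : Real.log (2 * C₁) * ζ / (θ * (ζ - 1 / 5)) ≤ Real.log T := by linarith
        rwa [div_le_iff₀ (mul_pos hθ0 (by linarith))] at e2
      rw [hlH] at hlogW
      have e3 : θ * Real.log T / 5 ≤ ζ * Real.log W := by nlinarith
      calc (d : ℝ) / 5 * (θ * Real.log T) = d * (θ * Real.log T / 5) := by ring
        _ ≤ d * (ζ * Real.log W) := mul_le_mul_of_nonneg_left e3 (by linarith)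
        _ = ζ * (d * Real.log W) := by ring
    have hYζ1 : 1 < (Y : ℝ) ^ ζ := Real.one_lt_rpow (by linarith) hζ
    have hz0 : f.eval z ≠ 0 := by
      intro h0
      have e1 : (2 : ℕ) ∣ (Algebra.norm ℤ (f.eval z)).natAbs := by
        rw [h0, Algebra.norm_zero]
        simp
      have e2 := hle 2 Nat.prime_two e1
      have e4 : H ^ ((d : ℝ) / 5) ≤ 2 := by exact_mod_cast hYζ.trans e2
      have e5 : (64 : ℝ) ^ ((1 : ℝ) / 5) ≤ H ^ ((d : ℝ) / 5) :=
        (Real.rpow_le_rpow (by norm_num) t5 (by norm_num)).trans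
          (Real.rpow_le_rpow_of_exponent_le (by linarith) (by linarith))
      have e6 : (64 : ℝ) ≤ 2 ^ (5 : ℕ) := by
        calc (64 : ℝ) = ((64 : ℝ) ^ ((1 : ℝ) / 5)) ^ (5 : ℕ) := by
              rw [← Real.rpow_natCast, ← Real.rpow_mul (by norm_num)]
              norm_num
          _ ≤ 2 ^ (5 : ℕ) := pow_le_pow_left₀ (by positivity) (e5.trans e4) 5
      norm_num at e6
    refine ⟨hclose, hz0, ?_, fun p hp hpd => hYζ.trans (hle p hp hpd)⟩
    have hn0 : (Algebra.norm ℤ (f.eval z)).natAbs ≠ 0 := by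
      rw [Ne, Int.natAbs_eq_zero, Algebra.norm_eq_zero_iff]
      exact hz0
    apply few_factors _ hn0 ((Y : ℝ) ^ ζ) ((Y : ℝ) ^ β) r hYζ1.le
      (Real.rpow_le_rpow_of_exponent_le (by linarith) hζβ) hle
    · intro p q hp hq hpd hqd hpB hqB
      have e1 : ∀ q : ℕ, q.Prime → q ∣ (Algebra.norm ℤ (f.eval z)).natAbs → (q : ℝ) < (Y : ℝ) ^ β →
          q ∈ (pr Y ζ β).filter (fun q => q ∣ (Algebra.norm ℤ (f.eval z)).natAbs) := by
        intro q hq hqd hqB
        rw [mem_filter, mem_pr']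
        have e2 : (q : ℝ) ≤ Y := by
          refine hqB.le.trans ?_
          calc (Y : ℝ) ^ β ≤ (Y : ℝ) ^ (1:ℝ) := Real.rpow_le_rpow_of_exponent_le (by linarith) (by linarith)
            _ = Y := Real.rpow_one _
        refine ⟨⟨⟨hq.pos, by exact_mod_cast e2⟩, hq, ?_, (tt_lt Y q β hY2 hq.pos).2 hqB⟩, hqd⟩
        by_contra hcon
        push Not at hcon
        have e3 := (tt_lt Y q ζ hY2 hq.pos).1 hcon
        linarith [hle q hq hqd]
      exact Finset.card_le_one.1 hx3 p (e1 p hp hpd hpB) q (e1 q hq hqd hqB)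
    · intro p hp hpB hpd
      have hpd1 : p ∣ (Algebra.norm ℤ (f.eval z)).natAbs := (dvd_pow_self p (by norm_num)).trans hpd
      have e2 : (p : ℝ) ≤ Y := by
        refine hpB.le.trans ?_
        calc (Y : ℝ) ^ β ≤ (Y : ℝ) ^ (1:ℝ) := Real.rpow_le_rpow_of_exponent_le (by linarith) (by linarith)
          _ = Y := Real.rpow_one _
      apply hx4 p _ hpd
      rw [mem_pr']
      refine ⟨⟨hp.pos, by exact_mod_cast e2⟩, hp, ?_, (tt_lt Y p β hY2 hp.pos).2 hpB⟩
      by_contra hcon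
      push Not at hcon
      have e3 := (tt_lt Y p ζ hY2 hp.pos).1 hcon
      linarith [hle p hp hpd1]
    · -- the size of the norm
      have hzT : ∀ σ : K →ₐ[ℚ] ℂ, ‖σ (z : K)‖ ≤ 2 * T := by
        intro σ
        have e2 : σ (z : K) = σ ((z - z₀ : 𝓞 K) : K) + σ (z₀ : K) := by
          rw [← map_add]
          congr 1
          push_cast
          ring
        rw [e2]
        refine (norm_add_le _ _).trans ?_
        linarith [hclose σ, hz₀ σ]
      have e1 : (((Algebra.norm ℤ (f.eval z)).natAbs : ℕ) : ℝ) ≤ (Cf * (2 * T) ^ g) ^ d := by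
        rw [Nat.cast_natAbs, Int.cast_abs, norm_eq, hd, ← card_emb (K := K), ← Finset.card_univ,
          ← Finset.prod_const]
        apply Finset.prod_le_prod (fun _ _ => norm_nonneg _)
        intro σ _
        exact hval z (2 * T) (by linarith) hzT σ
      refine lt_of_le_of_lt e1 ?_
      have hCf0 : 0 < Cf := by linarith
      rw [← Real.log_lt_log_iff (by positivity) (by positivity), Real.log_pow,
        Real.log_mul hCf0.ne' (by positivity), Real.log_pow,
        Real.log_mul (by norm_num) hT0.ne', Real.log_mul (by positivity) (by positivity), Real.log_pow,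
        Real.log_rpow hY0, Real.log_rpow hY0, hlogY]
      rw [hlH] at hlogW
      have e3 : A < Real.log T * ((ζ + r * β) * θ - g) := by
        have e4 : A / ((ζ + r * β) * θ - g) < Real.log T := by linarith
        rwa [div_lt_iff₀ (by linarith)] at e4
      have hζrβ : 0 < ζ + r * β := by
        have : 0 ≤ (r : ℝ) * β := mul_nonneg (Nat.cast_nonneg _) (by linarith)
        linarith
      have e5 : (ζ + r * β) * (θ * Real.log T - Real.log (2 * C₁)) ≤ (ζ + r * β) * Real.log W :=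
        mul_le_mul_of_nonneg_left hlogW hζrβ.le
      have e6 : Real.log Cf + g * (Real.log 2 + Real.log T) < (ζ + r * β) * Real.log W := by
        rw [hA] at e3
        nlinarith
      have e7 : (d : ℝ) * (Real.log Cf + g * (Real.log 2 + Real.log T)) <
          d * ((ζ + r * β) * Real.log W) :=
        mul_lt_mul_of_pos_left e6 (by linarith)
      calc (d : ℝ) * (Real.log Cf + g * (Real.log 2 + Real.log T)) < d * ((ζ + r * β) * Real.log W) := e7
        _ = ζ * (d * Real.log W) + r * (β * (d * Real.log W)) := by ring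

end Pool.Agent.H525.PV
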