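import Pool.Agent.H525.PV.Stm
import Pool.Agent.H525.SH.Siev

set_option autoImplicit false
set_option linter.unusedSectionVars false

/-! # Kuhn's sieve for the values of a polynomial at the integers of a number field in a box -/

namespace Pool.Agent.H525.PV

open Finset NumberField Filter Polynomial
open Pool.Agent.W23.DC Pool.Agent.Y882 Pool.Agent.Y677.KU
open Pool.Agent.H525.NF
open Pool.Agent.H525.SH (PA S_LAT cfi exists_index ev_siev)

open scoped Classical

/-- the absolute value of the norm of the value of `f` at the integer with the coordinates `x` -/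
noncomputable def nf {K : Type} [Field K] [NumberField K] {ι : Type} [Fintype ι] (f : (𝓞 K)[X])
    (b : Module.Basis ι ℤ (𝓞 K)) (x : ι → ℤ) : ℕ := (Algebra.norm ℤ (f.eval (∑ i, x i • b i))).natAbs

/-- translation of a box -/
theorem box_translate {K : Type} [Field K] [NumberField K] {ι : Type} [Fintype ι]
    (b : Module.Basis ι ℤ (𝓞 K)) (a : ι → ℤ) (W : ℕ) (I : Ideal (𝓞 K)) (v : 𝓞 K) :
    ((Box a W).filter (fun x => (∑ i, x i • b i) - v ∈ I)).card =
      ((Box (fun i => a i - b.repr v i) W).filter (fun x => (∑ i, x i • b i) ∈ I)).card := by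
  have hv : ∑ i, b.repr v i • b i = v := b.sum_repr v
  apply Finset.card_bij (fun x _ => fun i => x i - b.repr v i)
  · intro x hx
    rw [mem_filter, mem_Box] at hx ⊢
    refine ⟨fun i => ⟨by linarith [(hx.1 i).1], by linarith [(hx.1 i).2]⟩, ?_⟩
    have e1 : ∑ i, (x i - b.repr v i) • b i = (∑ i, x i • b i) - v := by
      rw [← hv, ← Finset.sum_sub_distrib]
      apply Finset.sum_congr rfl
      intro i _
      rw [hv, sub_smul]
    rw [e1]
    exact hx.2
  · intro x _ y _ hxy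
    funext i
    have h1 : x i - b.repr v i = y i - b.repr v i := congrFun hxy i
    linarith
  · intro y hy
    rw [mem_filter, mem_Box] at hy
    refine ⟨fun i => y i + b.repr v i, ?_, ?_⟩
    · rw [mem_filter, mem_Box]
      refine ⟨fun i => ⟨by linarith [(hy.1 i).1], by linarith [(hy.1 i).2]⟩, ?_⟩
      have e1 : ∑ i, (y i + b.repr v i) • b i = (∑ i, y i • b i) + v := by
        conv_rhs => rw [← hv]
        rw [← Finset.sum_add_distrib]
        apply Finset.sum_congr rfl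
        intro i _
        rw [add_smul]
      rw [e1, add_sub_cancel_right]
      exact hy.2
    · funext i
      simp

theorem er_bound (hIE : S_IE2) (hLAT : S_LAT) (K : Type) [Field K] [NumberField K] (ι : Type) [Fintype ι]
    (b : Module.Basis ι ℤ (𝓞 K)) (hc : Fintype.card ι = Module.finrank ℚ K) (f : (𝓞 K)[X]) (hf' : NoFix f) :
    ∃ C : ℝ, 0 ≤ C ∧ ∀ (a : ι → ℤ) (W : ℕ) (G : ℕ → ℕ), (∀ (P : ℕ → Prop),
      ((range (Box a W).card).filter (fun n => P (G n))).card =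
        ((Box a W).filter (fun x => P (nf f b x))).card) → ∀ T : Finset ℕ, (∀ p ∈ T, p.Prime) →
      Er (range (Box a W).card) G ((W ^ Fintype.card ι : ℕ) : ℝ) (hf f) T ≤
        (((f.natDegree : ℝ) + 1) ^ Fintype.card ι) ^ T.card * (C * (((W : ℝ) /
          ((∏ p ∈ T, p : ℕ) : ℝ) ^ ((1 : ℝ) / Fintype.card ι)) ^ (Fintype.card ι - 1) + 1)) := by
  obtain ⟨C, hC, hlat⟩ := hLAT K ι b
  refine ⟨C, by linarith, ?_⟩
  intro a W G hG T hT
  obtain ⟨J, hJ, I, v, c, h1, h2, h3, h4⟩ := hIE K f hf' T hT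
  set d := Fintype.card ι with hd
  have hd0 : 0 < d := by rw [hc]; exact Module.finrank_pos
  set D : ℕ := ∏ p ∈ T, p with hD
  have hD0 : 0 < D := Finset.prod_pos (fun p hp => (hT p hp).pos)
  have hD1 : (0:ℝ) < D := by exact_mod_cast hD0
  -- the number as a sum
  have hcount : (((range (Box a W).card).filter (fun n => D ∣ G n)).card : ℝ) =
      ∑ j, c j * (((Box a W).filter (fun x => (∑ i, x i • b i) - v j ∈ I j)).card : ℝ) := by
    have e0 : ((range (Box a W).card).filter (fun n => D ∣ G n)).card =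
        ((Box a W).filter (fun x => D ∣ nf f b x)).card :=
      (cfi _ _ _ _).trans ((hG (fun m => D ∣ m)).trans (cfi _ _ _ _))
    rw [e0, Finset.card_filter]
    push_cast
    have e1 : ∀ x ∈ Box a W, (if D ∣ nf f b x then (1:ℝ) else 0) =
        ∑ j, c j * (if (∑ i, x i • b i) - v j ∈ I j then 1 else 0) := fun x _ => h3 _
    rw [Finset.sum_congr rfl e1, Finset.sum_comm]
    apply Finset.sum_congr rfl
    intro j _
    rw [← Finset.mul_sum, Finset.card_filter]
    push_cast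
    rfl
  unfold Er
  have hdec : (((range (Box a W).card).filter (fun n => (∏ p ∈ T, p) ∣ G n)).card : ℝ) =
      ∑ j, c j * (((Box a W).filter (fun x => (∑ i, x i • b i) - v j ∈ I j)).card : ℝ) := hcount
  have key : |(∑ j, c j * (((Box a W).filter (fun x => (∑ i, x i • b i) - v j ∈ I j)).card : ℝ)) -
      ((W ^ d : ℕ) : ℝ) * ∏ p ∈ T, hf f p| ≤ (((f.natDegree : ℝ) + 1) ^ d) ^ T.card * (C * (((W : ℝ) /
          (D : ℝ) ^ ((1 : ℝ) / d)) ^ (d - 1) + 1)) := by
    rw [h4, Finset.mul_sum, ← Finset.sum_sub_distrib]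
    refine (Finset.abs_sum_le_sum_abs _ _).trans ?_
    set E : ℝ := C * (((W : ℝ) / (D : ℝ) ^ ((1 : ℝ) / d)) ^ (d - 1) + 1) with hE
    have hE0 : 0 ≤ E := by
      have : 0 ≤ ((W : ℝ) / (D : ℝ) ^ ((1 : ℝ) / d)) ^ (d - 1) := by positivity
      have hC0 : 0 ≤ C := by linarith
      positivity
    have hterm : ∀ j ∈ (univ : Finset J), |c j * (((Box a W).filter (fun x => (∑ i, x i • b i) - v j ∈ I j)).card : ℝ) -
        ((W ^ d : ℕ) : ℝ) * (c j / (Ideal.absNorm (I j) : ℝ))| ≤ E := by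
      intro j _
      obtain ⟨g1, g2, g3⟩ := h2 j
      have hN0 : 0 < Ideal.absNorm (I j) := by
        rw [Nat.pos_iff_ne_zero, Ne, Ideal.absNorm_eq_zero_iff]
        exact g2
      have hN : (0:ℝ) < Ideal.absNorm (I j) := by exact_mod_cast hN0
      set s : ℝ := (Ideal.absNorm (I j) : ℝ) ^ ((1 : ℝ) / d) with hs
      have hs0 : 0 < s := Real.rpow_pos_of_pos hN _
      have hsd : s ^ d = Ideal.absNorm (I j) := by
        rw [hs, one_div]
        exact Real.rpow_inv_natCast_pow hN.le hd0.ne'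
      have h5 := hlat (I j) g2 s hs0 hsd (fun i => a i - b.repr (v j) i) W
      rw [← box_translate] at h5
      rw [div_pow, hsd] at h5
      have h6 : c j * (((Box a W).filter (fun x => (∑ i, x i • b i) - v j ∈ I j)).card : ℝ) -
        ((W ^ d : ℕ) : ℝ) * (c j / (Ideal.absNorm (I j) : ℝ)) =
        c j * ((((Box a W).filter (fun x => (∑ i, x i • b i) - v j ∈ I j)).card : ℝ) -
          (W : ℝ) ^ d / (Ideal.absNorm (I j) : ℝ)) := by
        push_cast
        ring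
      rw [h6, abs_mul]
      have h7 : (W : ℝ) / s ≤ (W : ℝ) / (D : ℝ) ^ ((1 : ℝ) / d) := by
        apply div_le_div_of_nonneg_left (Nat.cast_nonneg _) (Real.rpow_pos_of_pos hD1 _)
        apply Real.rpow_le_rpow hD1.le _ (by positivity)
        exact_mod_cast Nat.le_of_dvd hN0 g3
      have h8 : ((W : ℝ) / s) ^ (d - 1) ≤ ((W : ℝ) / (D : ℝ) ^ ((1 : ℝ) / d)) ^ (d - 1) :=
        pow_le_pow_left₀ (by positivity) h7 _
      calc |c j| * |(((Box a W).filter (fun x => (∑ i, x i • b i) - v j ∈ I j)).card : ℝ) -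
          (W : ℝ) ^ d / (Ideal.absNorm (I j) : ℝ)| ≤ 1 * (C * (((W : ℝ) / s) ^ (d - 1) + 1)) :=
            mul_le_mul g1 h5 (abs_nonneg _) zero_le_one
        _ ≤ E := by
            rw [one_mul, hE]
            apply mul_le_mul_of_nonneg_left _ (by linarith)
            linarith
    refine (Finset.sum_le_sum hterm).trans ?_
    rw [Finset.sum_const, Finset.card_univ, nsmul_eq_mul]
    apply mul_le_mul_of_nonneg_right _ hE0
    rw [← hc] at h1
    exact_mod_cast h1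
  rw [← hdec] at key
  exact key

/-- the sifted elements -/
theorem sieve (hIE : S_IE2) (hLAT : S_LAT) (hSQ : S_SQ2) (hCOND : S_COND2) (hVLOW : S_VLOW2) (hERR : S_ERR2)
    (K : Type) [Field K] [NumberField K] (ι : Type) [Fintype ι]
    (b : Module.Basis ι ℤ (𝓞 K)) (hc : Fintype.card ι = Module.finrank ℚ K) (f : (𝓞 K)[X]) (hf1 : NoFix f)
    (hf2 : Irreducible (f.map (algebraMap (𝓞 K) K))) (hf3 : 1 ≤ f.natDegree) (τ ζ β : ℝ) (hζ : 0 < ζ)
    (h2 : 2 * ζ < τ) (h4 : τ ≤ 4 * ζ) (hτ : τ < 1) (hζβ : ζ ≤ β) (hβ : ζ + β < τ) :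
    ∃ c : ℝ, 0 < c ∧ ∃ W0 : ℕ, ∀ W : ℕ, W0 ≤ W → ∀ a : ι → ℤ,
      c * ((W ^ Fintype.card ι : ℕ) : ℝ) / Real.log ((W ^ Fintype.card ι : ℕ) : ℝ) ≤
      (((Box a W).filter (fun x => (∀ p ∈ PZ (W ^ Fintype.card ι) ζ, ¬ p ∣ nf f b x) ∧
        ((pr (W ^ Fintype.card ι) ζ β).filter (fun q => q ∣ nf f b x)).card ≤ 1 ∧
        ∀ q ∈ pr (W ^ Fintype.card ι) ζ β, ¬ q ^ 2 ∣ nf f b x)).card : ℝ) := by
  set d := Fintype.card ι with hd
  have hd0 : 0 < d := by rw [hc]; exact Module.finrank_pos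
  set δ : ℝ := (1 - τ) / 2 with hδ
  have hδ0 : 0 < δ := by rw [hδ]; linarith
  obtain ⟨ε₁, η₁, c₀, hε₁, hεζ, hη₁, hc₀, Yk, hk⟩ := kuhn (f.natDegree * Module.finrank ℚ K) τ ζ β δ hζ h2 h4 hτ.le hζβ
    hβ hδ0
  obtain ⟨Yc, hYc⟩ := hCOND K f hf1 hf2 hf3 ε₁ β η₁ hε₁ (by linarith) (by linarith) hη₁
  obtain ⟨cV, hcV, hV⟩ := hVLOW K f hf1 hf2 hf3
  obtain ⟨CE, hCE, hEr⟩ := er_bound hIE hLAT K ι b hc f hf1
  obtain ⟨δ', hδ', We, hWe⟩ := hERR d (((f.natDegree : ℝ) + 1) ^ d) CE (τ + δ) hd0 (one_le_pow₀ (by have : (0:ℝ) ≤ f.natDegree := Nat.cast_nonneg _; linarith)) hCE (by linarith) (by rw [hδ]; linarith)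
  obtain ⟨CS, p₀, hCS, hsq⟩ := hSQ K f hf2 hf3 ι b
  have hev := ev_siev δ' ζ β CS (c₀ * cV / 2) hδ' hζ (by linarith) (by linarith) (by positivity)
  obtain ⟨Y₂, hY₂⟩ := eventually_atTop.1 (hev.and ((tendsto_rpow_atTop hζ).eventually_ge_atTop (p₀ : ℝ)))
  refine ⟨c₀ * cV / 2, by positivity, max (max Yk Yc) (max We (max ⌈Y₂⌉₊ 3)), ?_⟩
  intro W hW a
  have w1 : Yk ≤ W := (le_max_left _ _).trans ((le_max_left _ _).trans hW)
  have w2 : Yc ≤ W := (le_max_right _ _).trans ((le_max_left _ _).trans hW)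
  have w3 : We ≤ W := (le_max_left _ _).trans ((le_max_right _ _).trans hW)
  have w4 : ⌈Y₂⌉₊ ≤ W := (le_max_left _ _).trans ((le_max_right _ _).trans ((le_max_right _ _).trans hW))
  have w5 : 3 ≤ W := (le_max_right _ _).trans ((le_max_right _ _).trans ((le_max_right _ _).trans hW))
  set Y : ℕ := W ^ d with hY
  have hWY : W ≤ Y := by rw [hY]; exact Nat.le_self_pow hd0.ne' W
  have hY3 : 3 ≤ Y := w5.trans hWY
  have hY3r : (3:ℝ) ≤ Y := by exact_mod_cast hY3
  have hlogY : 0 < Real.log Y := Real.log_pos (by linarith)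
  have hYY0 := hY₂ (Y : ℝ) (by
    refine (Nat.le_ceil _).trans ?_
    exact_mod_cast w4.trans hWY)
  obtain ⟨G, hG⟩ := exists_index (Box a W) (nf f b)
  have hG' : ∀ (P : ℕ → Prop), ((range (Box a W).card).filter (fun n => P (G n))).card =
      ((Box a W).filter (fun x => P (nf f b x))).card := hG
  have hkk := hk Y (w1.trans hWY) (range (Box a W).card) G (Y : ℝ) (hf f) (Nat.cast_nonneg _)
    (hYc Y (w2.trans hWY))
  -- the errors
  have herr : ∑ T ∈ (PZ Y β).powerset.filter (fun T => ((∏ p ∈ T, p : ℕ) : ℝ) ≤ (Y : ℝ) ^ (τ + δ)),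
      Er (range (Box a W).card) G (Y : ℝ) (hf f) T ≤ (Y : ℝ) ^ (1 - δ') := by
    have e1 := hWe W w3 ((PZ Y β).powerset.filter
      (fun T => ((∏ p ∈ T, p : ℕ) : ℝ) ≤ (Y : ℝ) ^ (τ + δ))) (by
        intro T hT
        rw [mem_filter, mem_powerset] at hT
        exact ⟨fun p hp => (mem_PZ.1 (hT.1 hp)).2.1, hT.2⟩)
    refine le_trans (Finset.sum_le_sum (fun T hT => ?_)) e1
    rw [mem_filter, mem_powerset] at hT
    exact hEr a W G hG' T (fun p hp => (mem_PZ.1 (hT.1 hp)).2.1)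
  -- the product
  have hVV := hV Y ε₁ (by omega)
  -- the count of the squares
  set Bad := (Box a W).filter (fun x => ∃ q ∈ pr Y ζ β, q ^ 2 ∣ nf f b x) with hBad
  have hbad : (Bad.card : ℝ) ≤ CS * ((Y : ℝ) ^ (1 - ζ) * (1 + Real.log Y) + (Y : ℝ) ^ β) := by
    have e1 : Bad ⊆ (pr Y ζ β).biUnion (fun q => (Box a W).filter (fun x => q ^ 2 ∣ nf f b x)) := by
      intro x hx
      rw [hBad, mem_filter] at hx
      obtain ⟨hx1, q, hq, hx2⟩ := hx
      rw [mem_biUnion]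
      exact ⟨q, hq, mem_filter.2 ⟨hx1, hx2⟩⟩
    have e2 : (Bad.card : ℝ) ≤ ∑ q ∈ pr Y ζ β, (((Box a W).filter (fun x => q ^ 2 ∣ nf f b x)).card : ℝ) := by
      exact_mod_cast (Finset.card_le_card e1).trans Finset.card_biUnion_le
    have e3 : ∀ q ∈ pr Y ζ β, (((Box a W).filter (fun x => q ^ 2 ∣ nf f b x)).card : ℝ) ≤
        CS * ((Y : ℝ) ^ (1 - ζ) * (1 / (q : ℝ)) + 1) := by
      intro q hq
      rw [mem_pr'] at hq
      obtain ⟨⟨q1, q2⟩, q3, q4, q5⟩ := hq
      have hq0 : (0:ℝ) < q := by exact_mod_cast q3.pos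
      have e4 : (Y : ℝ) ^ ζ ≤ q := by
        by_contra hcon
        push Not at hcon
        have := (tt_lt Y q ζ (by omega) q3.pos).2 hcon
        linarith
      have hqp : p₀ ≤ q := by
        have h8 : (p₀ : ℝ) ≤ q := hYY0.2.trans e4
        exact_mod_cast h8
      refine (hsq q q3 hqp a W).trans ?_
      apply mul_le_mul_of_nonneg_left _ (by linarith)
      have e5 : ((W : ℝ) ^ d) / (q : ℝ) ^ 2 ≤ (Y : ℝ) ^ (1 - ζ) * (1 / (q : ℝ)) := by
        have e6 : ((W : ℝ) ^ d) = Y := by rw [hY]; push_cast; rfl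
        rw [e6, Real.rpow_sub (by linarith), Real.rpow_one, sq]
        have e7 : (Y : ℝ) / (q * q) = (Y : ℝ) / q * (1 / q) := by field_simp
        rw [e7]
        apply mul_le_mul_of_nonneg_right _ (by positivity)
        exact div_le_div_of_nonneg_left (by linarith) (Real.rpow_pos_of_pos (by linarith) _) e4
      linarith
    refine e2.trans ((Finset.sum_le_sum e3).trans ?_)
    rw [← Finset.mul_sum, Finset.sum_add_distrib, ← Finset.mul_sum]
    apply mul_le_mul_of_nonneg_left _ (by linarith)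
    apply add_le_add
    · apply mul_le_mul_of_nonneg_left _ (Real.rpow_nonneg (by linarith) _)
      have e8 : ∑ q ∈ pr Y ζ β, 1 / (q : ℝ) ≤ ∑ q ∈ Icc 1 Y, 1 / (q : ℝ) := by
        apply Finset.sum_le_sum_of_subset_of_nonneg
        · intro q hq
          rw [mem_pr'] at hq
          rw [mem_Icc]
          exact hq.1
        · intro q _ _
          positivity
      have e9 := harmonic_le_one_add_log Y
      rw [harmonic_eq_sum_Icc] at e9
      push_cast at e9
      refine e8.trans ?_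
      simpa [one_div] using e9
    · rw [Finset.sum_const, nsmul_eq_mul, mul_one]
      have e10 : pr Y ζ β ⊆ Finset.Icc 1 ⌊(Y : ℝ) ^ β⌋₊ := by
        intro q hq
        rw [mem_pr'] at hq
        rw [mem_Icc]
        refine ⟨hq.1.1, Nat.le_floor ?_⟩
        exact ((tt_lt Y q β (by omega) hq.2.1.pos).1 hq.2.2.2).le
      have e11 := Finset.card_le_card e10
      rw [Nat.card_Icc, Nat.add_sub_cancel] at e11
      exact (Nat.cast_le.2 e11).trans (Nat.floor_le (Real.rpow_nonneg (by linarith) _))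
  -- comparison
  set Gd := (Box a W).filter (fun x => (∀ p ∈ PZ Y ζ, ¬ p ∣ nf f b x) ∧
        ((pr Y ζ β).filter (fun q => q ∣ nf f b x)).card ≤ 1 ∧
        ∀ q ∈ pr Y ζ β, ¬ q ^ 2 ∣ nf f b x) with hGd
  have hcmp : (((range (Box a W).card).filter (fun n => (∀ p ∈ PZ Y ζ, ¬ p ∣ G n) ∧
        ((pr Y ζ β).filter (fun q => q ∣ G n)).card ≤ 1)).card : ℝ) ≤ Gd.card + Bad.card := by
    have e1 := hG' (fun m => (∀ p ∈ PZ Y ζ, ¬ p ∣ m) ∧ ((pr Y ζ β).filter (fun q => q ∣ m)).card ≤ 1)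
    have e2 : (Box a W).filter (fun x => (∀ p ∈ PZ Y ζ, ¬ p ∣ nf f b x) ∧
        ((pr Y ζ β).filter (fun q => q ∣ nf f b x)).card ≤ 1) ⊆ Gd ∪ Bad := by
      intro x hx
      rw [mem_filter] at hx
      rw [mem_union, hGd, hBad, mem_filter, mem_filter]
      by_cases h : ∃ q ∈ pr Y ζ β, q ^ 2 ∣ nf f b x
      · exact Or.inr ⟨hx.1, h⟩
      · push Not at h
        exact Or.inl ⟨hx.1, hx.2.1, hx.2.2, h⟩
    have e3 : ((range (Box a W).card).filter (fun n => (∀ p ∈ PZ Y ζ, ¬ p ∣ G n) ∧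
        ((pr Y ζ β).filter (fun q => q ∣ G n)).card ≤ 1)).card ≤ Gd.card + Bad.card := by
      have e4 := (Finset.card_le_card e2).trans (Finset.card_union_le _ _)
      refine le_trans (le_of_eq ?_) e4
      exact (cfi _ _ _ _).trans (e1.trans (cfi _ _ _ _))
    exact_mod_cast e3
  have hkk' : c₀ * (Y : ℝ) * ∏ p ∈ PZ Y ε₁, (1 - hf f p) - 6 * Real.log Y *
      ∑ T ∈ (PZ Y β).powerset.filter (fun T => ((∏ p ∈ T, p : ℕ) : ℝ) ≤ (Y : ℝ) ^ (τ + δ)),
      Er (range (Box a W).card) G (Y : ℝ) (hf f) T ≤ Gd.card + Bad.card := by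
    refine le_trans hkk (le_trans (le_of_eq ?_) hcmp)
    rfl
  have hYY := hYY0.1
  have m1 : c₀ * cV * (Y : ℝ) / Real.log Y ≤ c₀ * (Y : ℝ) * ∏ p ∈ PZ Y ε₁, (1 - hf f p) := by
    have := mul_le_mul_of_nonneg_left hVV (show 0 ≤ c₀ * (Y : ℝ) by positivity)
    refine le_trans (le_of_eq ?_) this
    ring
  have m2 : 6 * Real.log Y *
      ∑ T ∈ (PZ Y β).powerset.filter (fun T => ((∏ p ∈ T, p : ℕ) : ℝ) ≤ (Y : ℝ) ^ (τ + δ)),
      Er (range (Box a W).card) G (Y : ℝ) (hf f) T ≤ 6 * Real.log Y * (Y : ℝ) ^ (1 - δ') :=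
    mul_le_mul_of_nonneg_left herr (by positivity)
  have m3 : c₀ * cV * (Y : ℝ) / Real.log Y = c₀ * cV / 2 * (Y : ℝ) / Real.log Y +
      c₀ * cV / 2 * (Y : ℝ) / Real.log Y := by ring
  linarith

end Pool.Agent.H525.PV
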