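import Pool.Agent.H525.SH.Stm

set_option autoImplicit false

/-! # Statements used for almost prime values of polynomials in short cubes of number fields (helper525)

`S_X` are propositions, each is proved in a separate file (`t_X`). Compare `Pool/Agent/H525/SH` (there `f = X`), whose
proofs can be copied and changed. -/

namespace Pool.Agent.H525.PV

open Finset NumberField Filter Polynomial
open Pool.Agent.W23.DC Pool.Agent.Y882 Pool.Agent.Y677.KU
open Pool.Agent.H525.NF (Box)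
open Pool.Agent.H525.SH (PA)

open scoped Classical

/-- the number of the roots of `f` modulo the ideal `P` -/
noncomputable def rt {K : Type} [Field K] [NumberField K] (f : (𝓞 K)[X]) (P : Ideal (𝓞 K)) : ℕ :=
  Nat.card {r : 𝓞 K ⧸ P // (f.map (Ideal.Quotient.mk P)).eval r = 0}

/-- the proportion of the integers `z` of `K` such that the norm of `f(z)` is divisible by `p` -/
noncomputable def hf {K : Type} [Field K] [NumberField K] (f : (𝓞 K)[X]) (p : ℕ) : ℝ :=
  1 - ∏ P ∈ PA K p, (1 - (rt f P : ℝ) / (Ideal.absNorm P : ℝ))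

/-- `f` has no fixed prime divisor -/
def NoFix {K : Type} [Field K] [NumberField K] (f : (𝓞 K)[X]) : Prop :=
  ∀ P : Ideal (𝓞 K), P.IsPrime → P ≠ ⊥ → ∃ z : 𝓞 K, f.eval z ∉ P

/-- RT. The number of the roots.

Proof. `P` is maximal (`Ideal.IsPrime.isMaximal`) and `𝓞 K ⧸ P` is a finite field with `absNorm P` elements
(`Ideal.absNorm_apply`, `Submodule.cardQuot_apply`). `f` modulo `P` is not zero as it does not vanish at the class of
`z`, and its degree is at most the degree of `f` (`Polynomial.card_roots'`, `natDegree_map_le`); the class of `z`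
is not a root. -/
def S_RT : Prop := ∀ (K : Type) [Field K] [NumberField K] (f : (𝓞 K)[X]), NoFix f →
  ∀ P : Ideal (𝓞 K), P.IsPrime → P ≠ ⊥ → rt f P ≤ f.natDegree ∧ rt f P < Ideal.absNorm P

/-- IE2. Inclusion and exclusion.

Proof. As in `Pool/Agent/H525/SH/IE.lean` (there `f = X`), with induction on `T`. For one prime number `p`:
`p` divides the norm of `w` iff `w ∈ P` for some `P ∈ PA K p` (`Pool.Agent.H525.SH.X.t_PAF`), and
`1[f(z) ∈ P] = ∑_r 1[z ≡ r mod P]`, the sum over the roots `r` of `f` modulo `P` (choose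
representatives). So `1 - ∏_{P ∈ PA K p} (1 - ∑_r 1[z ≡ r mod P])` is the sum over the nonempty subsets `A` of `PA K p`
and the choices of one root `r_P` for each `P ∈ A` of `(-1) ^ (|A| + 1) ∏_{P ∈ A} 1[z ≡ r_P mod P]`; by the Chinese
remainder theorem (`Ideal.exists_forall_sub_mem_ideal` or `IsDedekindDomain.exists_forall_sub_mem_ideal`) the
product is the indicator of a class `v` modulo `∏ P`. The number of these terms is at most
`∏ (1 + rt f P) ≤ (natDegree f + 1) ^ d` by `S_RT` and `(PA K p).card ≤ d`. The same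
identity with `φ P = rt f P / absNorm P` in place of `∑_r 1[z ≡ r mod P]` gives the last formula. For the step from `T`
to `insert p T` combine the classes modulo `I j` and modulo the product of the prime ideals above `p` (coprime). -/
def S_IE2 : Prop := ∀ (K : Type) [Field K] [NumberField K] (f : (𝓞 K)[X]), NoFix f →
  ∀ (T : Finset ℕ), (∀ p ∈ T, p.Prime) →
  ∃ (J : Type) (_ : Fintype J) (I : J → Ideal (𝓞 K)) (v : J → 𝓞 K) (c : J → ℝ),
    Fintype.card J ≤ ((f.natDegree + 1) ^ Module.finrank ℚ K) ^ T.card ∧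
    (∀ j, |c j| ≤ 1 ∧ I j ≠ ⊥ ∧ (∏ p ∈ T, p) ∣ Ideal.absNorm (I j)) ∧
    (∀ z : 𝓞 K, (if (∏ p ∈ T, p) ∣ (Algebra.norm ℤ (f.eval z)).natAbs then (1 : ℝ) else 0) =
      ∑ j, c j * (if z - v j ∈ I j then 1 else 0)) ∧
    ∏ p ∈ T, hf f p = ∑ j, c j / (Ideal.absNorm (I j) : ℝ)

/-- SQ2. Norms of values divisible by the square of a prime number.

Proof. As `f` is irreducible over `K`, it is prime to its derivative, so that there are `u, v` in `(𝓞 K)[X]` and `δ ≠ 0` in
`𝓞 K` with `u f + v f' = δ` (Bézout over `K`, clear denominators). Let `p > p₀` not divide the norm of `δ` nor the norm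
of the leading coefficient of `f`. If `p ^ 2` divides the norm of `f(z)` then (see `mem_BI` in `SH/SQ.lean`) `f(z)` is
zero or in an ideal `I` of the form `P` (`P ∈ PA K p` with `absNorm P ≠ p`), `P ^ 2` (`P ∈ PA K p`) or `P * Q`
(`P ≠ Q` in `PA K p`); if `f(z) = 0` it is in all of these. All of these ideals have `p ^ 2 ∣ absNorm I`. In each case `z` is in
one of at most `g ^ 2` (`g` the degree of `f`) classes modulo `I`: for `P` the roots of `f` modulo `P`, at most `g`
since `f` is not zero modulo `P`; for `P * Q` pairs of roots (`z - z' ∈ P` and `z - z' ∈ Q` imply `z - z' ∈ P * Q`); for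
`P ^ 2`: if `z ≡ z' mod P` and `f(z), f(z') ∈ P ^ 2` then `f(z') - f(z) = (z' - z) (f'(z) + (z' - z) w)`, where
`f'(z) ∉ P` as `δ ∉ P`, so that `z' - z ∈ P ^ 2` (`f'(z) + (z' - z) w` is not in the prime ideal `P`; use
`Ideal.IsPrime.mul_mem_pow` or similar). By `S_LAT` (for the box translated by a member `v` of the class, and
`s ^ d = absNorm I ≥ p ^ 2`) each class has at most `(1 + C) ((W / s) ^ d + 1) + C` points in the box. -/
def S_SQ2 : Prop := ∀ (K : Type) [Field K] [NumberField K] (f : (𝓞 K)[X]),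
  Irreducible (f.map (algebraMap (𝓞 K) K)) → 1 ≤ f.natDegree →
  ∀ (ι : Type) [Fintype ι] (b : Module.Basis ι ℤ (𝓞 K)), ∃ (C : ℝ) (p₀ : ℕ), 1 ≤ C ∧
    ∀ p : ℕ, p.Prime → p₀ ≤ p → ∀ (a : ι → ℤ) (W : ℕ),
    (((Box a W).filter (fun x => p ^ 2 ∣ (Algebra.norm ℤ (f.eval (∑ i, x i • b i))).natAbs)).card : ℝ) ≤
      C * ((W : ℝ) ^ Fintype.card ι / (p : ℝ) ^ 2 + 1)

/-- AV2. Roots modulo prime ideals of degree one and homomorphisms of a ring of integers.

Proof. The library has the theorem of Lang and Weil in the form of Landau: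
`Pool.Agent.R410.LW.landau` (`team-store fetch /workdir/pool Pool/Graph/R_seed8/R410/LW/Main.lean`; definition
`Landau` in `R410/LW/Step.lean`; the case of dimension zero is `landau_zero'`). Apply it to
`A = AdjoinRoot f` made a domain, for instance the image of `(𝓞 K)[X]` in `M = AdjoinRoot (f.map (algebraMap (𝓞 K) K))`
(a number field), or to `A = 𝓞 K [1 / c][θ]`. Or directly, with `L = M`: let `c` be the leading coefficient of `f`,
`θ` the root of `f` in `M`; for all but finitely many `p`, the homomorphisms `𝓞 M → ZMod p` correspond to the pairs of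
a homomorphism `φ : 𝓞 K → ZMod p` and a root of `f` mapped by `φ` (restrict to `𝓞 K`, and take the image of `c θ`
divided by that of `c`), as there is an integer `n ≠ 0` with `n 𝓞 M ⊆ 𝓞 K [c θ]` and `f` is separable modulo `p`. The
homomorphisms `𝓞 K → ZMod p` correspond to the `P ∈ PA K p` with `absNorm P = p`
(`Pool.Agent.H525.NF.card_homs` in `Pool/Agent/H525/NF/Mert.lean`, `card_one` in `SH/COND.lean`). See also
`Pool/Graph/R_seed8/H474R2/PG/HomsRho.lean` for the case `K = ℚ`. -/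
def S_AV2 : Prop := ∀ (K : Type) [Field K] [NumberField K] (f : (𝓞 K)[X]),
  Irreducible (f.map (algebraMap (𝓞 K) K)) → 1 ≤ f.natDegree →
  ∃ (L : Type) (_ : Field L) (_ : NumberField L) (p₀ : ℕ), ∀ p : ℕ, p.Prime → p₀ ≤ p →
    ∑ P ∈ (PA K p).filter (fun P => Ideal.absNorm P = p), rt f P = Nat.card (𝓞 L →+* ZMod p)

/-- COND2. The densities `hf f p` satisfy the conditions of the linear sieve.

Proof. As in `Pool/Agent/H525/SH/COND.lean`, where `f = X`. `0 ≤ rt f P / absNorm P ≤ 1` and `rt f P ≤ natDegree f` by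
`S_RT`. `hf f p ≤ ∑_{P ∈ PA K p} rt f P / absNorm P ≤ d g / p`. Mertens in windows: `mer_of_avg` with `r p = p * hf f p`;
average one by `S_AV2` and the prime ideal theorem `Pool.Agent.H484R2.pit` for `L`, since
`|p * hf f p - Nat.card (𝓞 L →+* ZMod p)| ≤ C / p` for `p ≥ p₀` (finitely many primes do not matter). -/
def S_COND2 : Prop := ∀ (K : Type) [Field K] [NumberField K] (f : (𝓞 K)[X]), NoFix f →
  Irreducible (f.map (algebraMap (𝓞 K) K)) → 1 ≤ f.natDegree →
  ∀ (ε₁ β η : ℝ), 0 < ε₁ → ε₁ ≤ 1 → β ≤ 1 → 0 < η →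
  ∃ Y0 : ℕ, ∀ Y : ℕ, Y0 ≤ Y → Cond (f.natDegree * Module.finrank ℚ K) Y ε₁ β η (hf f)

/-- VLOW2. Lower bound for the product.

Proof. As in `Pool/Agent/H525/SH/VLOW.lean`. `1 - hf f p > 0` by `S_RT`; for large `p` we have
`log (1 - h) ≥ -h - h ^ 2 * 2` and `h = hf f p ≤ ν(p) / p + C / p ^ 2` with `ν(p) = Nat.card (𝓞 L →+* ZMod p)` (`S_AV2`), and
`∑_{p ≤ w} ν(p) / p ≤ log log w + C` (`Pool.Agent.H525.NF.homs_upper` for `L`). -/
def S_VLOW2 : Prop := ∀ (K : Type) [Field K] [NumberField K] (f : (𝓞 K)[X]), NoFix f →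
  Irreducible (f.map (algebraMap (𝓞 K) K)) → 1 ≤ f.natDegree →
  ∃ c : ℝ, 0 < c ∧ ∀ (Y : ℕ) (ε₁ : ℝ), 2 ≤ Y → c / Real.log Y ≤ ∏ p ∈ PZ Y ε₁, (1 - hf f p)

/-- ERR2. The sum of the errors: `S_ERR` (proved in `Pool/Agent/H525/SH/ERR.lean`) with `M ^ |T|` for any `M ≥ 1` in the
place of `(2 ^ d) ^ |T|`; the proof is the same. -/
def S_ERR2 : Prop := ∀ (d : ℕ) (M C σ : ℝ), 1 ≤ d → 1 ≤ M → 0 ≤ C → 0 < σ → σ < 1 → ∃ δ : ℝ, 0 < δ ∧ ∃ W0 : ℕ,
  ∀ W : ℕ, W0 ≤ W → ∀ 𝒯 : Finset (Finset ℕ), (∀ T ∈ 𝒯, (∀ p ∈ T, p.Prime) ∧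
    ((∏ p ∈ T, p : ℕ) : ℝ) ≤ ((W ^ d : ℕ) : ℝ) ^ σ) →
  ∑ T ∈ 𝒯, M ^ T.card *
    (C * (((W : ℝ) / ((∏ p ∈ T, p : ℕ) : ℝ) ^ ((1 : ℝ) / d)) ^ (d - 1) + 1)) ≤
    ((W ^ d : ℕ) : ℝ) ^ (1 - δ)

end Pool.Agent.H525.PV
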